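import Pool.Agent.H48.CN.Weier

/-!
# The 2-descent homomorphism of `Y^2 = X^3 + A X^2 + B X + C` at a root `e` of the cubic
-/

namespace H48.CN

open WeierstrassCurve WeierstrassCurve.Affine

variable {K : Type*} [Field K] [DecidableEq K] {A B C : K}

/-- The value of the descent map at `e`: `x - e`, replaced by the derivative of the cubic at `e` when
`x = e`, and `1` at infinity. -/
def dval (e : K) : (Wc A B C).Point → K
  | .zero => 1
  | .some x _ _ => if x = e then 3 * e ^ 2 + 2 * A * e + B else x - e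

theorem dval_zero (e : K) : dval e (0 : (Wc A B C).Point) = 1 := rfl

theorem dval_some (e : K) {x y : K} (h : (Wc A B C).Nonsingular x y) :
    dval e (Point.some x y h) = if x = e then 3 * e ^ 2 + 2 * A * e + B else x - e := rfl

theorem dval_ne_zero {e : K} (he' : 3 * e ^ 2 + 2 * A * e + B ≠ 0) (P : (Wc A B C).Point) :
    dval e P ≠ 0 := by
  rcases P with _ | ⟨x, y, h⟩
  · simp [dval]
  · rw [dval_some]
    split_ifs with hx
    · exact he'
    · exact sub_ne_zero.2 hx

theorem dval_neg {e : K} (P : (Wc A B C).Point) : dval e (-P) = dval e P := by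
  rcases P with _ | ⟨x, y, h⟩
  · rfl
  · rw [Point.neg_some, dval_some, dval_some]

theorem dval_mul {e : K} (he : e ^ 3 + A * e ^ 2 + B * e + C = 0)
    (P Q : (Wc A B C).Point) : IsSquare (dval e (P + Q) * (dval e P * dval e Q)) := by
  rcases P with _ | ⟨x₁, y₁, h₁⟩
  · change IsSquare (dval e ((0 : (Wc A B C).Point) + Q) * (dval e (0 : (Wc A B C).Point) * dval e Q))
    rw [zero_add, dval_zero]; exact ⟨dval e Q, by ring⟩
  rcases Q with _ | ⟨x₂, y₂, h₂⟩
  · change IsSquare (dval e (Point.some x₁ y₁ h₁ + 0) *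
      (dval e (Point.some x₁ y₁ h₁) * dval e (0 : (Wc A B C).Point)))
    rw [add_zero, dval_zero]; exact ⟨dval e (Point.some x₁ y₁ h₁), by ring⟩
  have e₁ := eqn_iff.1 h₁.1
  have e₂ := eqn_iff.1 h₂.1
  by_cases h : x₁ = x₂ ∧ y₁ = -y₂
  · have : (Point.some x₁ y₁ h₁ : (Wc A B C).Point) + Point.some x₂ y₂ h₂ = 0 :=
      Point.add_of_Y_eq h.1 (by rw [negY_eq]; exact h.2)
    rw [this, dval_zero, dval_some, dval_some, h.1]
    exact ⟨_, by ring⟩
  obtain ⟨l, x₃, y₃, h₃, hP, r1, r2, r3, -⟩ := add_rel h₁ h₂ h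
  rw [hP, dval_some, dval_some, dval_some]
  have s2 : x₁ * x₂ + x₁ * x₃ + x₂ * x₃ = B - 2 * l * (y₁ - l * x₁) := by
    rw [r3]; linear_combination r2 - l * r1
  have s3 : x₁ * x₂ * x₃ = (y₁ - l * x₁) ^ 2 - C := by
    rw [r3]; linear_combination x₁ * r2 - x₁ * l * r1 - e₁
  have key : (x₁ - e) * (x₂ - e) * (x₃ - e) = (y₁ - l * x₁ + l * e) ^ 2 := by
    linear_combination s3 - e * s2 + e ^ 2 * r3 - he
  by_cases hx1 : x₁ = e
  · have hy1 : y₁ = 0 := by
      have : y₁ ^ 2 = 0 := by rw [e₁, hx1, he]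
      exact pow_eq_zero_iff (two_ne_zero) |>.1 this
    have hx2 : x₂ ≠ e := by
      intro hx2
      have hy2 : y₂ = 0 := by
        have : y₂ ^ 2 = 0 := by rw [e₂, hx2, he]
        exact pow_eq_zero_iff (two_ne_zero) |>.1 this
      exact h ⟨hx1.trans hx2.symm, by rw [hy1, hy2, neg_zero]⟩
    have hd : (x₂ - e) * (x₃ - e) = 3 * e ^ 2 + 2 * A * e + B := by
      subst hx1
      rw [hy1] at s2
      linear_combination s2 - 2 * x₁ * r3
    by_cases hx3 : x₃ = e
    · rw [if_pos hx1, if_neg hx2, if_pos hx3]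
      have : 3 * e ^ 2 + 2 * A * e + B = 0 := by rw [← hd, hx3]; ring
      rw [this]; exact ⟨0, by ring⟩
    · rw [if_pos hx1, if_neg hx2, if_neg hx3]
      exact ⟨3 * e ^ 2 + 2 * A * e + B, by rw [← hd]; ring⟩
  by_cases hx2 : x₂ = e
  · have hy2 : y₂ = 0 := by
      have : y₂ ^ 2 = 0 := by rw [e₂, hx2, he]
      exact pow_eq_zero_iff (two_ne_zero) |>.1 this
    have hd : (x₁ - e) * (x₃ - e) = 3 * e ^ 2 + 2 * A * e + B := by
      subst hx2
      have h0 : y₁ - l * x₁ + l * x₂ = 0 := by rw [hy2] at r1; linear_combination -r1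
      linear_combination s2 - 2 * x₂ * r3 - 2 * l * h0
    by_cases hx3 : x₃ = e
    · rw [if_neg hx1, if_pos hx2, if_pos hx3]
      have : 3 * e ^ 2 + 2 * A * e + B = 0 := by rw [← hd, hx3]; ring
      rw [this]; exact ⟨0, by ring⟩
    · rw [if_neg hx1, if_pos hx2, if_neg hx3]
      exact ⟨3 * e ^ 2 + 2 * A * e + B, by rw [← hd]; ring⟩
  by_cases hx3 : x₃ = e
  · have h0 : y₁ - l * x₁ + l * e = 0 := by
      have : (y₁ - l * x₁ + l * e) ^ 2 = 0 := by rw [← key, hx3]; ring
      exact pow_eq_zero_iff (two_ne_zero) |>.1 this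
    have hd : (x₁ - e) * (x₂ - e) = 3 * e ^ 2 + 2 * A * e + B := by
      subst hx3
      linear_combination s2 - 2 * x₃ * r3 - 2 * l * h0
    rw [if_neg hx1, if_neg hx2, if_pos hx3]
    exact ⟨3 * e ^ 2 + 2 * A * e + B, by rw [← hd]⟩
  · rw [if_neg hx1, if_neg hx2, if_neg hx3]
    exact ⟨y₁ - l * x₁ + l * e, by linear_combination key⟩

/-- The group of square classes. -/
abbrev SqCl (K : Type*) [Field K] : Type _ := Kˣ ⧸ (powMonoidHom 2 : Kˣ →* Kˣ).range

omit [DecidableEq K] in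
theorem SqCl_eq_iff (a b : Kˣ) :
    ((a : SqCl K) = (b : SqCl K)) ↔ IsSquare ((a : K) * b) := by
  rw [QuotientGroup.eq]
  constructor
  · rintro ⟨c, hc⟩
    refine ⟨a * c, ?_⟩
    have hc' : c ^ 2 = a⁻¹ * b := hc
    have : (b : K) = a * c ^ 2 := by
      have h2 : b = a * c ^ 2 := by rw [hc']; group
      rw [h2]; push_cast; ring
    rw [this]; ring
  · rintro ⟨c, hc⟩
    have hc0 : c ≠ 0 := by
      rintro rfl
      have : (a : K) * b ≠ 0 := mul_ne_zero a.ne_zero b.ne_zero
      exact this (by rw [hc]; ring)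
    refine ⟨a⁻¹ * Units.mk0 c hc0, ?_⟩
    change (a⁻¹ * Units.mk0 c hc0) ^ 2 = a⁻¹ * b
    ext
    push_cast
    rw [Units.val_mk0]
    have ha : (a : K) ≠ 0 := a.ne_zero
    field_simp
    linear_combination -hc

/-- The group of square classes, written additively. -/
def SqV (K : Type*) [Field K] : Type _ := Additive (SqCl K)

instance (K : Type*) [Field K] : AddCommGroup (SqV K) :=
  inferInstanceAs (AddCommGroup (Additive (SqCl K)))

/-- The descent homomorphism. -/
noncomputable def delta {e : K} (he : e ^ 3 + A * e ^ 2 + B * e + C = 0)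
    (he' : 3 * e ^ 2 + 2 * A * e + B ≠ 0) :
    (Wc A B C).Point →+ SqV K where
  toFun P := Additive.ofMul ((Units.mk0 (dval e P) (dval_ne_zero he' P) : Kˣ) : SqCl K)
  map_zero' := by
    change Additive.ofMul _ = Additive.ofMul 1
    congr 1
    have : Units.mk0 (dval e (0 : (Wc A B C).Point)) (dval_ne_zero he' 0) = 1 := by
      ext; simp [dval_zero]
    rw [this]; rfl
  map_add' P Q := by
    change Additive.ofMul _ = Additive.ofMul (_ * _)
    congr 1
    exact (SqCl_eq_iff _ (Units.mk0 (dval e P) (dval_ne_zero he' P) *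
      Units.mk0 (dval e Q) (dval_ne_zero he' Q))).2 (by
        simp only [Units.val_mk0, Units.val_mul]
        exact dval_mul he P Q)

theorem delta_apply {e : K} (he : e ^ 3 + A * e ^ 2 + B * e + C = 0)
    (he' : 3 * e ^ 2 + 2 * A * e + B ≠ 0) (P : (Wc A B C).Point) :
    delta he he' P =
      Additive.ofMul ((Units.mk0 (dval e P) (dval_ne_zero he' P) : Kˣ) : SqCl K) := rfl

end H48.CN
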