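import Pool.Agent.H48.CN.Descent

/-!
# Four independent points on `y^2 = x^3 - n^2 x`

If the images of four points under the complete 2-descent are, up to squares, `(a, b)`, `(b, ab)`,
`(ab, b)`, `(b, a)` for positive rational numbers `a, b` such that `a, b, 2` are independent modulo
squares, then the four points are linearly independent over `ℤ`.
-/

namespace H48.CN

open WeierstrassCurve WeierstrassCurve.Affine

section cls

variable {K : Type*} [Field K]

/-- The class of a nonzero element in the additive group of square classes. -/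
noncomputable def cl (q : K) (hq : q ≠ 0) : SqV K :=
  Additive.ofMul ((Units.mk0 q hq : Kˣ) : SqCl K)

theorem cl_eq_iff {a b : K} (ha : a ≠ 0) (hb : b ≠ 0) : cl a ha = cl b hb ↔ IsSquare (a * b) :=
  SqCl_eq_iff (Units.mk0 a ha) (Units.mk0 b hb)

theorem cl_mul {a b : K} (ha : a ≠ 0) (hb : b ≠ 0) :
    cl (a * b) (mul_ne_zero ha hb) = cl a ha + cl b hb := by
  have : Units.mk0 (a * b) (mul_ne_zero ha hb) = Units.mk0 a ha * Units.mk0 b hb := by
    ext; simp
  unfold cl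
  rw [this]; rfl

theorem cl_one : cl (1 : K) one_ne_zero = 0 := by
  have : Units.mk0 (1 : K) one_ne_zero = 1 := by ext; simp
  unfold cl
  rw [this]; rfl

theorem cl_eq_zero_iff {a : K} (ha : a ≠ 0) : cl a ha = 0 ↔ IsSquare a := by
  rw [← cl_one, cl_eq_iff, mul_one]

theorem two_nsmul_SqCl (v : SqV K) : (2 : ℕ) • v = 0 := by
  obtain ⟨u, rfl⟩ := Additive.ofMul.surjective v
  obtain ⟨u, rfl⟩ := QuotientGroup.mk_surjective u
  have : ((u : SqCl K)) ^ 2 = 1 := by
    rw [← QuotientGroup.mk_pow, QuotientGroup.eq_one_iff]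
    exact ⟨u, rfl⟩
  exact congrArg Additive.ofMul this

theorem zsmul_even {i : ℤ} (hi : i % 2 = 0) (v : SqV K) : i • v = 0 := by
  obtain ⟨j, rfl⟩ := Int.dvd_of_emod_eq_zero hi
  rw [mul_comm, mul_zsmul]
  have : (2 : ℤ) • v = 0 := by
    have := two_nsmul_SqCl v
    rw [← natCast_zsmul] at this
    simpa using this
  rw [this, zsmul_zero]

theorem zsmul_odd {i : ℤ} (hi : i % 2 = 1) (v : SqV K) : i • v = v := by
  have h : i = (i - 1) + 1 := by ring
  have h2 : (i - 1) % 2 = 0 := by omega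
  rw [h, add_zsmul, zsmul_even h2, one_zsmul, zero_add]

end cls

/-- The conditions on `a, b`. -/
structure Good (a b : ℚ) : Prop where
  pa : 0 < a
  pb : 0 < b
  na : ¬ IsSquare a
  nb : ¬ IsSquare b
  nab : ¬ IsSquare (a * b)
  n2 : ¬ IsSquare (2 : ℚ)
  n2a : ¬ IsSquare (2 * a)
  n2b : ¬ IsSquare (2 * b)
  n2ab : ¬ IsSquare (2 * (a * b))

variable {a b : ℚ}

theorem Good.comb (h : Good a b) (i j : ℤ) :
    i • cl a h.pa.ne' + j • cl b h.pb.ne' = 0 ∧ (i % 2 = 0 ∧ j % 2 = 0) ∨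
    ∃ (c : ℚ) (hc : c ≠ 0), i • cl a h.pa.ne' + j • cl b h.pb.ne' = cl c hc ∧ 0 < c ∧
      ¬ IsSquare c ∧ ¬ IsSquare (2 * c) := by
  rcases Int.emod_two_eq_zero_or_one i with hi | hi <;>
  rcases Int.emod_two_eq_zero_or_one j with hj | hj
  · left
    rw [zsmul_even hi, zsmul_even hj, add_zero]; exact ⟨rfl, hi, hj⟩
  · right
    refine ⟨b, h.pb.ne', ?_, h.pb, h.nb, h.n2b⟩
    rw [zsmul_even hi, zsmul_odd hj, zero_add]
  · right
    refine ⟨a, h.pa.ne', ?_, h.pa, h.na, h.n2a⟩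
    rw [zsmul_odd hi, zsmul_even hj, add_zero]
  · right
    refine ⟨a * b, mul_ne_zero h.pa.ne' h.pb.ne', ?_, mul_pos h.pa h.pb, h.nab, h.n2ab⟩
    rw [zsmul_odd hi, zsmul_odd hj, cl_mul h.pa.ne' h.pb.ne']

theorem Good.comb_zero (h : Good a b) {i j : ℤ}
    (e : i • cl a h.pa.ne' + j • cl b h.pb.ne' = 0) : i % 2 = 0 ∧ j % 2 = 0 := by
  rcases h.comb i j with h1 | ⟨c, hc, h1, -, h3, -⟩
  · exact h1.2
  · rw [e] at h1
    exact absurd ((cl_eq_zero_iff hc).1 h1.symm) h3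

theorem Good.comb_neg (h : Good a b) {i j : ℤ} {d : ℚ} (hd : d < 0)
    (e : i • cl a h.pa.ne' + j • cl b h.pb.ne' = cl d hd.ne) : False := by
  rcases h.comb i j with h1 | ⟨c, hc, h1, h2, -, -⟩
  · rw [h1.1] at e
    obtain ⟨r, hr⟩ := (cl_eq_zero_iff hd.ne).1 e.symm
    nlinarith [mul_self_nonneg r]
  · rw [e] at h1
    obtain ⟨r, hr⟩ := (cl_eq_iff hd.ne hc).1 h1
    have : d * c < 0 := mul_neg_of_neg_of_pos hd h2
    nlinarith [mul_self_nonneg r]

theorem Good.comb_two (h : Good a b) {i j : ℤ}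
    (e : i • cl a h.pa.ne' + j • cl b h.pb.ne' = cl 2 two_ne_zero) : False := by
  rcases h.comb i j with h1 | ⟨c, hc, h1, h2, -, h4⟩
  · rw [h1.1] at e
    exact h.n2 ((cl_eq_zero_iff two_ne_zero).1 e.symm)
  · rw [e] at h1
    exact h4 ((cl_eq_iff two_ne_zero hc).1 h1)

/-- The congruent number curve `y^2 = x^3 - n^2 x`. -/
abbrev En (n : ℚ) : WeierstrassCurve.Affine ℚ := Wc 0 (-n ^ 2) 0

theorem En_eqn {n x y : ℚ} : (En n).Equation x y ↔ y ^ 2 = x ^ 3 - n ^ 2 * x := by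
  rw [eqn_iff]
  constructor <;> intro h <;> linear_combination h

section

variable {n : ℚ} (hn : n ≠ 0)

theorem root_zero (n : ℚ) : (0 : ℚ) ^ 3 + 0 * 0 ^ 2 + (-n ^ 2) * 0 + 0 = 0 := by ring

theorem root_n (n : ℚ) : n ^ 3 + 0 * n ^ 2 + (-n ^ 2) * n + 0 = 0 := by ring

include hn

theorem der_zero : 3 * (0 : ℚ) ^ 2 + 2 * 0 * 0 + (-n ^ 2) ≠ 0 := by
  have : n ^ 2 ≠ 0 := pow_ne_zero 2 hn
  simpa using this

theorem der_n : 3 * n ^ 2 + 2 * 0 * n + (-n ^ 2) ≠ 0 := by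
  have h : n ^ 2 ≠ 0 := pow_ne_zero 2 hn
  intro h2
  apply h
  linear_combination h2 / 2

/-- First descent map. -/
noncomputable def D0 : (En n).Point →+ SqV ℚ := delta (root_zero n) (der_zero hn)

/-- Second descent map. -/
noncomputable def Dn : (En n).Point →+ SqV ℚ := delta (root_n n) (der_n hn)

theorem D0_eq {P : (En n).Point} {c : ℚ} (hc : c ≠ 0) (h : IsSquare (dval 0 P * c)) :
    D0 hn P = cl c hc :=
  (cl_eq_iff (dval_ne_zero (der_zero hn) P) hc).2 h

theorem Dn_eq {P : (En n).Point} {c : ℚ} (hc : c ≠ 0) (h : IsSquare (dval n P * c)) :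
    Dn hn P = cl c hc :=
  (cl_eq_iff (dval_ne_zero (der_n hn) P) hc).2 h

/-- The two descent maps on a 2-torsion point. -/
theorem torsion_cases {Z : (En n).Point} (hZ : (2 : ℤ) • Z = 0) :
    Z = 0 ∨ (∃ d : ℚ, ∃ hd : d < 0, D0 hn Z = cl d hd.ne) ∨ Dn hn Z = cl 2 two_ne_zero ∨
      D0 hn Z + Dn hn Z = cl 2 two_ne_zero := by
  rcases Z with _ | ⟨x, y, h⟩
  · left; rfl
  · right
    have hyy : y = 0 := by
      by_contra hy
      have hne : ¬(x = x ∧ y = -y) := by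
        rintro ⟨-, h2⟩; exact hy (by linarith)
      obtain ⟨l, x₃, y₃, h₃, hP, -⟩ := add_rel h h hne
      rw [two_zsmul, hP] at hZ
      exact Point.some_ne_zero h₃ hZ
    have e := En_eqn.1 h.1
    rw [hyy] at e
    have e2 : x * ((x - n) * (x + n)) = 0 := by linear_combination -e
    rcases mul_eq_zero.1 e2 with h0 | h0
    · left
      have hneg : -n ^ 2 < 0 := by have := sq_pos_of_ne_zero hn; linarith
      refine ⟨-n ^ 2, hneg, ?_⟩
      apply D0_eq
      rw [dval_some, if_pos h0]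
      exact ⟨n ^ 2, by ring⟩
    rcases mul_eq_zero.1 h0 with h1 | h1
    · right; left
      apply Dn_eq
      have hx : x = n := by linear_combination h1
      rw [dval_some, if_pos hx]
      exact ⟨2 * n, by ring⟩
    · right; right
      have hx : x = -n := by linear_combination h1
      have hxn : x ≠ n := by
        intro h2; apply hn; linarith
      have hx0 : x ≠ 0 := by rw [hx]; exact neg_ne_zero.2 hn
      have h2n : -2 * n ≠ 0 := mul_ne_zero (by norm_num) hn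
      have a1 : D0 hn (Point.some x y h) = cl (-n) (neg_ne_zero.2 hn) := by
        apply D0_eq
        rw [dval_some, if_neg hx0, hx]
        exact ⟨n, by ring⟩
      have a2 : Dn hn (Point.some x y h) = cl (-2 * n) h2n := by
        apply Dn_eq
        rw [dval_some, if_neg hxn, hx]
        exact ⟨2 * n, by ring⟩
      rw [a1, a2, ← cl_mul, cl_eq_iff]
      exact ⟨2 * n, by ring⟩

variable (h : Good a b) (P : Fin 4 → (En n).Point)
  (p0 : D0 hn (P 0) = cl a h.pa.ne') (q0 : Dn hn (P 0) = cl b h.pb.ne')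
  (p1 : D0 hn (P 1) = cl b h.pb.ne') (q1 : Dn hn (P 1) = cl a h.pa.ne' + cl b h.pb.ne')
  (p2 : D0 hn (P 2) = cl a h.pa.ne' + cl b h.pb.ne') (q2 : Dn hn (P 2) = cl b h.pb.ne')
  (p3 : D0 hn (P 3) = cl b h.pb.ne') (q3 : Dn hn (P 3) = cl a h.pa.ne')

include p0 p1 p2 p3 q0 q1 q2 q3

theorem step {c : Fin 4 → ℤ} {Z : (En n).Point} (hZ : (2 : ℤ) • Z = 0)
    (hc : ∑ i, c i • P i = Z) : Z = 0 ∧ ∀ i, c i % 2 = 0 := by
  have E0 : (c 0 + c 2) • cl a h.pa.ne' + (c 1 + c 2 + c 3) • cl b h.pb.ne' = D0 hn Z := by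
    rw [← hc, map_sum, Fin.sum_univ_four, map_zsmul, map_zsmul, map_zsmul, map_zsmul,
      p0, p1, p2, p3]
    module
  have E1 : (c 1 + c 3) • cl a h.pa.ne' + (c 0 + c 1 + c 2) • cl b h.pb.ne' = Dn hn Z := by
    rw [← hc, map_sum, Fin.sum_univ_four, map_zsmul, map_zsmul, map_zsmul, map_zsmul,
      q0, q1, q2, q3]
    module
  rcases torsion_cases hn hZ with h0 | ⟨d, hd, h0⟩ | h0 | h0
  · rw [h0, map_zero] at E0 E1
    have f0 := h.comb_zero E0
    have f1 := h.comb_zero E1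
    refine ⟨h0, ?_⟩
    intro i
    fin_cases i <;> simp <;> omega
  · rw [h0] at E0
    exact (h.comb_neg hd E0).elim
  · rw [h0] at E1
    exact (h.comb_two E1).elim
  · rw [← E0, ← E1] at h0
    exact (h.comb_two (i := (c 0 + c 2) + (c 1 + c 3)) (j := (c 1 + c 2 + c 3) + (c 0 + c 1 + c 2))
      (by rw [← h0]; module)).elim

theorem pow_dvd_coeff (k : ℕ) : ∀ c : Fin 4 → ℤ, ∑ i, c i • P i = 0 → ∀ i, (2 : ℤ) ^ k ∣ c i := by
  induction k with
  | zero => intro c _ i; simp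
  | succ k ih =>
    intro c hc i
    obtain ⟨-, h1⟩ := step hn h P p0 q0 p1 q1 p2 q2 p3 q3 (Z := 0) (zsmul_zero _) hc
    have h2 : ∀ i, c i = 2 * (c i / 2) := fun i => by have := h1 i; omega
    set d : Fin 4 → ℤ := fun i => c i / 2 with hd
    have h3 : (2 : ℤ) • (∑ i, d i • P i) = 0 := by
      rw [Finset.smul_sum, ← hc]
      refine Finset.sum_congr rfl fun i _ => ?_
      rw [smul_smul, ← h2 i]
    obtain ⟨h4, -⟩ := step hn h P p0 q0 p1 q1 p2 q2 p3 q3 h3 rfl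
    have h5 := ih d h4 i
    rw [h2 i, pow_succ, mul_comm ((2 : ℤ) ^ k) 2]
    exact mul_dvd_mul_left 2 h5

theorem indep : LinearIndependent ℤ P := by
  rw [Fintype.linearIndependent_iff]
  intro c hc i
  by_contra hne
  have hk := pow_dvd_coeff hn h P p0 q0 p1 q1 p2 q2 p3 q3 (c i).natAbs c hc i
  have h1 := Int.le_of_dvd (abs_pos.2 hne) ((dvd_abs _ _).2 hk)
  have h2 : (c i).natAbs < 2 ^ (c i).natAbs := Nat.lt_two_pow_self
  have h3 : ((c i).natAbs : ℤ) = |c i| := Int.natCast_natAbs _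
  have h4 : ((2 ^ (c i).natAbs : ℕ) : ℤ) = 2 ^ (c i).natAbs := by push_cast; rfl
  omega

end

end H48.CN
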