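import Pool.Agent.H48.CN.Indep

/-!
# Four points on congruent number curves from one point on a genus one curve

For a rational point `(s, y)` on `-2 y^2 = 9 s^3 - 13 s^2 + 15 s - 9` the curve
`E_n : Y^2 = X^3 - n^2 X` with `n = 3 s (3 s^2 - 2 s + 3) (3 s^2 + 2 s + 3)` carries four
explicit rational points.
-/

namespace H48.CN

open WeierstrassCurve WeierstrassCurve.Affine

/-- `3 s^2 - 2 s + 3`. -/
def fm (s : ℚ) : ℚ := 3 * s ^ 2 - 2 * s + 3

/-- `3 s^2 + 2 s + 3`. -/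
def fp (s : ℚ) : ℚ := 3 * s ^ 2 + 2 * s + 3

theorem fm_pos (s : ℚ) : 0 < fm s := by unfold fm; nlinarith [sq_nonneg (3 * s - 1)]

theorem fp_pos (s : ℚ) : 0 < fp s := by unfold fp; nlinarith [sq_nonneg (3 * s + 1)]

/-- A point of `E_m` from a solution of `m Y^2 = X^3 - X`. -/
theorem nonsing_En {m X Y : ℚ} (hm : m ≠ 0) (h : m * Y ^ 2 = X ^ 3 - X) :
    (En m).Nonsingular (m * X) (m ^ 2 * Y) := by
  apply nonsing_of
  · linear_combination m ^ 3 * h
  · by_cases hY : Y = 0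
    · right
      intro h2
      have h3 : m ^ 2 * (3 * X ^ 2 - 1) = 0 := by linear_combination h2
      rcases mul_eq_zero.1 h3 with h4 | h4
      · exact hm (pow_eq_zero_iff two_ne_zero |>.1 h4)
      · rw [hY] at h
        have h5 : X * (X ^ 2 - 1) = 0 := by linear_combination -h
        rcases mul_eq_zero.1 h5 with h6 | h6
        · rw [h6] at h4; norm_num at h4
        · have : (3 : ℚ) * 1 - 1 = 0 := by linear_combination h4 - 3 * h6
          norm_num at this
    · left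
      exact mul_ne_zero two_ne_zero (mul_ne_zero (pow_ne_zero 2 hm) hY)

theorem exists_point {m : ℚ} (hm : m ≠ 0) {X Y c d : ℚ} (h : m * Y ^ 2 = X ^ 3 - X)
    (hX : X ≠ 0) (hX1 : X - 1 ≠ 0) (hc : c ≠ 0) (hd : d ≠ 0)
    (h0 : IsSquare (m * X * c)) (h1 : IsSquare (m * (X - 1) * d)) :
    ∃ P : (En m).Point, D0 hm P = cl c hc ∧ Dn hm P = cl d hd := by
  refine ⟨Point.some _ _ (nonsing_En hm h), ?_, ?_⟩
  · apply D0_eq
    rw [dval_some, if_neg (mul_ne_zero hm hX), sub_zero]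
    exact h0
  · apply Dn_eq
    have : m * X ≠ m := by
      intro h2
      have h3 : m * (X - 1) = 0 := by linear_combination h2
      rcases mul_eq_zero.1 h3 with h4 | h4
      · exact hm h4
      · exact hX1 h4
    rw [dval_some, if_neg this]
    have h5 : m * X - m = m * (X - 1) := by ring
    rw [h5]; exact h1

theorem four_points {s y m t : ℚ} (h : -2 * y ^ 2 = 9 * s ^ 3 - 13 * s ^ 2 + 15 * s - 9)
    (hs : s ≠ 0) (hy : y ≠ 0) (h37 : 7 * s - 3 ≠ 0) (ht : t ≠ 0)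
    (hm : 3 * s * fm s * fp s = m * t ^ 2) (hg : Good (3 * fm s) (3 * fp s)) :
    ∃ P : Fin 4 → (En m).Point, LinearIndependent ℤ P := by
  have hfm := (fm_pos s).ne'
  have hfp := (fp_pos s).ne'
  have hm0 : m ≠ 0 := by
    rintro rfl
    have : 3 * s * fm s * fp s ≠ 0 := by positivity
    exact this (by rw [hm]; ring)
  have hmt : m = 3 * s * fm s * fp s / t ^ 2 := by
    rw [hm]; field_simp
  have hs1 : s - 1 ≠ 0 := by
    intro h2
    have h3 : s = 1 := by linear_combination h2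
    rw [h3] at h
    nlinarith [sq_nonneg y]
  have c0 : 5 * s ^ 2 - 4 * s + 3 ≠ 0 := by nlinarith [sq_nonneg (5 * s - 2)]
  have c1 : 5 * s ^ 2 + 9 ≠ 0 := by positivity
  have c2 : 7 * s ^ 2 - 6 * s + 9 ≠ 0 := by nlinarith [sq_nonneg (7 * s - 3)]
  -- first point
  obtain ⟨P0, p0, q0⟩ := exists_point hm0 (X := fp s / (4 * s)) (Y := t * (s + 1) / (8 * s ^ 2))
    (c := 3 * fm s) (d := 3 * fp s)
    (by rw [hmt]; field_simp; unfold fm fp; ring)
    (by positivity)
    (by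
      have : fp s / (4 * s) - 1 = fm s / (4 * s) := by field_simp; unfold fm fp; ring
      rw [this]; positivity)
    (by positivity) (by positivity)
    ⟨3 * fm s * fp s / (2 * t), by rw [hmt]; field_simp; ring⟩
    ⟨3 * fm s * fp s / (2 * t), by
      have : fp s / (4 * s) - 1 = fm s / (4 * s) := by field_simp; unfold fm fp; ring
      rw [this, hmt]; field_simp; ring⟩
  obtain ⟨P1, p1, q1⟩ := exists_point hm0 (X := fm s / (4 * s)) (Y := t * (s - 1) / (8 * s ^ 2))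
    (c := 3 * fp s) (d := 3 * fm s * (3 * fp s))
    (by rw [hmt]; field_simp; unfold fm fp; ring)
    (by positivity)
    (by
      have : fm s / (4 * s) - 1 = 3 * (s - 1) ^ 2 / (4 * s) := by field_simp; unfold fm; ring
      rw [this]; positivity)
    (by positivity) (by positivity)
    ⟨3 * fm s * fp s / (2 * t), by rw [hmt]; field_simp; ring⟩
    ⟨9 * fm s * fp s * (s - 1) / (2 * t), by
      have : fm s / (4 * s) - 1 = 3 * (s - 1) ^ 2 / (4 * s) := by field_simp; unfold fm; ring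
      rw [this, hmt]; field_simp; ring⟩
  have e2 : 3 * (5 * s ^ 2 - 4 * s + 3) ^ 2 / (16 * s * y ^ 2) - 1 =
      fm s * (7 * s - 3) ^ 2 / (16 * s * y ^ 2) := by
    field_simp; unfold fm; linear_combination 8 * s * h
  have e2' : 3 * (5 * s ^ 2 - 4 * s + 3) ^ 2 / (16 * s * y ^ 2) + 1 =
      fp s * (s - 3) ^ 2 / (16 * s * y ^ 2) := by
    field_simp; unfold fp; linear_combination -8 * s * h
  obtain ⟨P2, p2, q2⟩ := exists_point hm0
    (X := 3 * (5 * s ^ 2 - 4 * s + 3) ^ 2 / (16 * s * y ^ 2))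
    (Y := t * ((5 * s ^ 2 - 4 * s + 3) * (7 * s - 3) * (s - 3)) / (64 * s ^ 2 * y ^ 3))
    (c := 3 * fm s * (3 * fp s)) (d := 3 * fp s)
    (by
      have : ∀ X : ℚ, X ^ 3 - X = X * (X - 1) * (X + 1) := fun X => by ring
      rw [this, e2, e2', hmt]; field_simp; ring)
    (by positivity) (by rw [e2]; positivity) (by positivity) (by positivity)
    ⟨9 * fm s * fp s * (5 * s ^ 2 - 4 * s + 3) / (4 * t * y), by rw [hmt]; field_simp; ring⟩
    ⟨3 * fm s * fp s * (7 * s - 3) / (4 * t * y), by rw [e2, hmt]; field_simp; ring⟩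
  have e3 : fm s * (5 * s ^ 2 + 9) ^ 2 / (16 * s ^ 3 * y ^ 2) - 1 =
      fp s * (7 * s ^ 2 - 6 * s + 9) ^ 2 / (16 * s ^ 3 * y ^ 2) := by
    field_simp; unfold fm fp; linear_combination 8 * s ^ 3 * h
  have e3' : fm s * (5 * s ^ 2 + 9) ^ 2 / (16 * s ^ 3 * y ^ 2) + 1 =
      3 * (s ^ 3 + 9 * s ^ 2 - 3 * s + 9) ^ 2 / (16 * s ^ 3 * y ^ 2) := by
    field_simp; unfold fm; linear_combination -8 * s ^ 3 * h
  obtain ⟨P3, p3, q3⟩ := exists_point hm0
    (X := fm s * (5 * s ^ 2 + 9) ^ 2 / (16 * s ^ 3 * y ^ 2))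
    (Y := t * ((5 * s ^ 2 + 9) * (7 * s ^ 2 - 6 * s + 9) * (s ^ 3 + 9 * s ^ 2 - 3 * s + 9)) /
      (64 * s ^ 5 * y ^ 3))
    (c := 3 * fp s) (d := 3 * fm s)
    (by
      have : ∀ X : ℚ, X ^ 3 - X = X * (X - 1) * (X + 1) := fun X => by ring
      rw [this, e3, e3', hmt]; field_simp; ring)
    (by positivity) (by rw [e3]; positivity) (by positivity) (by positivity)
    ⟨3 * fm s * fp s * (5 * s ^ 2 + 9) / (4 * s * t * y), by rw [hmt]; field_simp; ring⟩
    ⟨3 * fm s * fp s * (7 * s ^ 2 - 6 * s + 9) / (4 * s * t * y), by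
      rw [e3, hmt]; field_simp; ring⟩
  refine ⟨![P0, P1, P2, P3], indep hm0 hg _ p0 q0 p1 ?_ ?_ q2 p3 q3⟩
  · exact q1.trans (cl_mul _ _)
  · exact p2.trans (cl_mul _ _)

end H48.CN
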