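import Pool.Agent.H48.CN.Order
import Pool.Agent.H48.CN.Points

/-!
# Infinitely many congruent number curves of rank at least four
-/

namespace H48.CN

open WeierstrassCurve WeierstrassCurve.Affine
open scoped NumberTheorySymbols

theorem jac_one {N l : ℕ} (hN : 0 < N) (hl : l % (4 * N) = 4 * N - 1) : J(N | l) = 1 := by
  have hodd : Odd l := by
    rw [Nat.odd_iff]
    have h1 := Nat.div_add_mod l (4 * N)
    rw [hl] at h1
    have h2 : 4 * N * (l / (4 * N)) = 2 * (2 * N * (l / (4 * N))) := by ring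
    omega
  rw [jacobiSym.mod_right' N hodd, hl]
  have hodd2 : Odd (4 * N - 1) := by rw [Nat.odd_iff]; omega
  have h4 := jacobiSym.at_four hodd2
  have h5 : J(4 * (N : ℤ) | 4 * N - 1) = 1 := by
    have : J(4 * (N : ℤ) | 4 * N - 1) = J(1 | 4 * N - 1) := by
      apply jacobiSym.mod_left'
      have : (4 * (N : ℤ)) = 1 + ((4 * N - 1 : ℕ) : ℤ) * 1 := by
        rw [Nat.cast_sub (by omega)]; push_cast; ring
      rw [this, Int.add_mul_emod_self_left]
    rw [this, jacobiSym.one_left]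
  rw [jacobiSym.mul_left, h4, one_mul] at h5
  exact h5

/-- Every nonzero rational number is `± N t^2` with `N` squarefree. -/
theorem squarefree_part {q : ℚ} (hq : q ≠ 0) : ∃ (N : ℕ) (t : ℚ), Squarefree N ∧ t ≠ 0 ∧
    (0 < q → q = N * t ^ 2) ∧ (q < 0 → q = -N * t ^ 2) := by
  have hd : (q.den : ℚ) ≠ 0 := by exact_mod_cast q.den_nz
  obtain ⟨N, b, hb, hN⟩ := Nat.sq_mul_squarefree (q.num.natAbs * q.den)
  have habs : |q| = ((q.num.natAbs : ℚ)) / q.den := by
    conv_lhs => rw [← Rat.num_div_den q]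
    rw [abs_div]
    congr 1
    · rw [← Int.cast_abs, Int.abs_eq_natAbs, Int.cast_natCast]
    · exact abs_of_pos (by exact_mod_cast q.den_pos)
  have hq' : |q| = N * ((b : ℚ) / q.den) ^ 2 := by
    have h1 : ((b ^ 2 * N : ℕ) : ℚ) = ((q.num.natAbs * q.den : ℕ) : ℚ) := by rw [hb]
    push_cast at h1
    rw [habs]
    field_simp
    linear_combination -h1
  have hb0 : b ≠ 0 := by
    rintro rfl
    apply hq
    rw [← abs_eq_zero, hq']; simp
  refine ⟨N, (b : ℚ) / q.den, hN, div_ne_zero (by exact_mod_cast hb0) hd, ?_, ?_⟩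
  · intro h
    rw [← hq', abs_of_pos h]
  · intro h
    rw [abs_of_neg h] at hq'
    linear_combination -hq'

/-- A rational number which is a nonsquare modulo `p` is not a square. -/
theorem not_sq_of_rd {p : ℕ} [Fact p.Prime] (c : OO p)
    (h : ∀ z : ZMod p, z * z ≠ rd p c) : ¬ IsSquare (c : ℚ) := by
  rintro ⟨r, hr⟩
  have hr' : r ∈ OO p := by
    rw [mem_OO]
    have h1 : pv p r ^ 2 ≤ 1 := by
      rw [← pv_pow, sq, ← hr]; exact c.2
    exact (pow_le_one_iff_of_nonneg (pv_nonneg p r) two_ne_zero).1 h1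
  have : c = ⟨r, hr'⟩ * ⟨r, hr'⟩ := Subtype.ext hr
  apply h (rd p ⟨r, hr'⟩)
  rw [← map_mul, ← this]

instance fact7 : Fact (Nat.Prime 7) := ⟨by norm_num⟩
instance fact71 : Fact (Nat.Prime 71) := ⟨by norm_num⟩
instance fact5 : Fact (Nat.Prime 5) := ⟨by norm_num⟩

theorem pv_nat_one {p : ℕ} [hp : Fact p.Prime] {n : ℕ} (h : ¬ p ∣ n) : pv p (n : ℚ) = 1 := by
  unfold pv
  rw [Rat.cast_natCast, Padic.norm_natCast_eq_one_iff]
  exact (Nat.Prime.coprime_iff_not_dvd hp.out).2 h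

theorem mem_of_mul {p : ℕ} [Fact p.Prime] {a b : ℚ} (ha : pv p a = 1) (h : a * b ∈ OO p) :
    b ∈ OO p := by
  rw [mem_OO, pv_mul, ha, one_mul] at h
  exact h

/-- The integral element attached to a rational `s` congruent to `31 / 72`. -/
theorem s_facts {p : ℕ} [hp : Fact p.Prime] (hp2 : ¬ p ∣ 72) {x : ℚ}
    (hx : pv p (x - (-31 / 4)) < 1) :
    ∃ s : OO p, (s : ℚ) = -x / 18 ∧ (72 : ZMod p) * rd p s = 31 := by
  have h72 : pv p ((72 : ℕ) : ℚ) = 1 := pv_nat_one hp2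
  have h4 : pv p 4 = 1 := by
    have := pv_nat_one (p := p) (n := 4) (fun h => hp2 (h.trans (by norm_num)))
    exact_mod_cast this
  have e1 : ((72 : ℕ) : ℚ) * (-x / 18) = 31 + (-(4 * (x - (-31 / 4)))) := by
    push_cast; ring
  have hd : pv p (-(4 * (x - (-31 / 4)))) < 1 := by
    rw [pv_neg, pv_mul, h4, one_mul]; exact hx
  have hs : -x / 18 ∈ OO p := by
    apply mem_of_mul h72
    rw [e1]
    exact add_mem (ofNat_mem_OO p 31) (le_of_lt hd : _ ≤ (1 : ℝ))
  refine ⟨⟨-x / 18, hs⟩, rfl, ?_⟩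
  have h1 : rd p ((72 : OO p) * ⟨-x / 18, hs⟩) = rd p (31 : OO p) := by
    rw [rd_eq_iff]
    have : (((72 : OO p) * ⟨-x / 18, hs⟩ : OO p) : ℚ) - ((31 : OO p) : ℚ) =
        -(4 * (x - (-31 / 4))) := by
      have h2 : (((72 : OO p) * ⟨-x / 18, hs⟩ : OO p) : ℚ) = 72 * (-x / 18) := rfl
      have h3 : ((31 : OO p) : ℚ) = 31 := rfl
      rw [h2, h3]; ring
    rw [this]; exact hd
  rw [map_mul] at h1
  have h72' : rd p (72 : OO p) = 72 := map_ofNat (rd p) 72
  have h31' : rd p (31 : OO p) = 31 := map_ofNat (rd p) 31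
  rw [h72', h31'] at h1
  exact h1

/-- The element `3 (3 s^2 - 2 s + 3)`. -/
def fmO {p : ℕ} [Fact p.Prime] (s : OO p) : OO p := 3 * (3 * s ^ 2 - 2 * s + 3)

/-- The element `3 (3 s^2 + 2 s + 3)`. -/
def fpO {p : ℕ} [Fact p.Prime] (s : OO p) : OO p := 3 * (3 * s ^ 2 + 2 * s + 3)

theorem rd_fmO {p : ℕ} [Fact p.Prime] (s : OO p) :
    rd p (fmO s) = 3 * (3 * rd p s ^ 2 - 2 * rd p s + 3) := by
  unfold fmO
  simp only [map_mul, map_add, map_sub, map_pow, map_ofNat]

theorem rd_fpO {p : ℕ} [Fact p.Prime] (s : OO p) :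
    rd p (fpO s) = 3 * (3 * rd p s ^ 2 + 2 * rd p s + 3) := by
  unfold fpO
  simp only [map_mul, map_add, map_pow, map_ofNat]

theorem good_of {x : ℚ} (h7 : pv 7 (x - (-31 / 4)) < 1) (h71 : pv 71 (x - (-31 / 4)) < 1) :
    Good (3 * fm (-x / 18)) (3 * fp (-x / 18)) := by
  obtain ⟨s, hs, hs'⟩ := s_facts (p := 7) (by norm_num) h7
  obtain ⟨u, hu, hu'⟩ := s_facts (p := 71) (by norm_num) h71
  have hs5 : rd 7 s = 5 := by
    have : ∀ z : ZMod 7, 72 * z = 31 → z = 5 := by decide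
    exact this _ hs'
  have hu31 : rd 71 u = 31 := by
    have : ∀ z : ZMod 71, 72 * z = 31 → z = 31 := by decide
    exact this _ hu'
  have ca : 3 * fm (-x / 18) = ((fmO u : OO 71) : ℚ) := by
    rw [← hu]; rfl
  have cb : 3 * fp (-x / 18) = ((fpO u : OO 71) : ℚ) := by
    rw [← hu]; rfl
  have cb7 : 3 * fp (-x / 18) = ((fpO s : OO 7) : ℚ) := by
    rw [← hs]; rfl
  have ra : rd 71 (fmO u) = 3 * (3 * 31 ^ 2 - 2 * 31 + 3) := by rw [rd_fmO, hu31]
  have rb : rd 71 (fpO u) = 3 * (3 * 31 ^ 2 + 2 * 31 + 3) := by rw [rd_fpO, hu31]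
  have rb7 : rd 7 (fpO s) = 3 * (3 * 5 ^ 2 + 2 * 5 + 3) := by rw [rd_fpO, hs5]
  have h2O : ∀ {p : ℕ} [Fact p.Prime], rd p (2 : OO p) = 2 := fun {p} _ => map_ofNat (rd p) 2
  refine ⟨by have := fm_pos (-x / 18); positivity, by have := fp_pos (-x / 18); positivity,
    ?_, ?_, ?_, ?_, ?_, ?_, ?_⟩
  · rw [ca]
    apply not_sq_of_rd
    rw [ra]; decide
  · rw [cb7]
    apply not_sq_of_rd
    rw [rb7]; decide
  · have : 3 * fm (-x / 18) * (3 * fp (-x / 18)) = ((fmO u * fpO u : OO 71) : ℚ) := by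
      rw [ca, cb]; rfl
    rw [this]
    apply not_sq_of_rd
    rw [map_mul, ra, rb]; decide
  · have : (2 : ℚ) = ((2 : OO 5) : ℚ) := rfl
    rw [this]
    apply not_sq_of_rd
    rw [h2O]; decide
  · have : 2 * (3 * fm (-x / 18)) = ((2 * fmO u : OO 71) : ℚ) := by
      rw [ca]; rfl
    rw [this]
    apply not_sq_of_rd
    rw [map_mul, h2O, ra]; decide
  · have : 2 * (3 * fp (-x / 18)) = ((2 * fpO s : OO 7) : ℚ) := by
      rw [cb7]; rfl
    rw [this]
    apply not_sq_of_rd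
    rw [map_mul, h2O, rb7]; decide
  · have : 2 * (3 * fm (-x / 18) * (3 * fp (-x / 18))) = ((2 * (fmO u * fpO u) : OO 71) : ℚ) := by
      rw [ca, cb]; rfl
    rw [this]
    apply not_sq_of_rd
    rw [map_mul, map_mul, h2O, ra, rb]; decide

/-- The parameter of the twist. -/
def nn (x : ℚ) : ℚ := 3 * (-x / 18) * fm (-x / 18) * fp (-x / 18)

theorem En_neg (m : ℚ) : En (-m) = En m := by
  unfold En
  rw [neg_sq]

/-- The set of squarefree `N` for which `E_N` has four independent rational points. -/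
def RR : Set ℕ := {N : ℕ | Squarefree N ∧
  ∃ P : Fin 4 → (En (N : ℚ)).Point, LinearIndependent ℤ P}

theorem mem_RR {x y : ℚ} (e : y ^ 2 = x ^ 3 + 26 * x ^ 2 + 540 * x + 5832)
    (h7 : pv 7 (x - (-31 / 4)) < 1) (h71 : pv 71 (x - (-31 / 4)) < 1) :
    ∃ (N : ℕ) (t : ℚ), N ∈ RR ∧ t ≠ 0 ∧ (nn x = N * t ^ 2 ∧ x < 0 ∨ nn x = -N * t ^ 2) := by
  have hgood := good_of h7 h71
  obtain ⟨s, hs, hs'⟩ := s_facts (p := 7) (by norm_num) h7
  have hs5 : rd 7 s = 5 := by
    have : ∀ z : ZMod 7, 72 * z = 31 → z = 5 := by decide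
    exact this _ hs'
  have hss : -x / 18 = (s : ℚ) := hs.symm
  have hs0 : -x / 18 ≠ 0 := by
    intro h0
    have : s = 0 := Subtype.ext (by rw [← hss, h0]; rfl)
    rw [this, map_zero] at hs5
    exact absurd hs5 (by decide)
  have h37 : 7 * (-x / 18) - 3 ≠ 0 := by
    intro h0
    have h1 : (7 : OO 7) * s - 3 = 0 := Subtype.ext (by
      have : (((7 : OO 7) * s - 3 : OO 7) : ℚ) = 7 * (s : ℚ) - 3 := rfl
      rw [this, ← hss, h0]; rfl)
    have h2 := congrArg (rd 7) h1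
    rw [map_sub, map_mul, map_zero, hs5, map_ofNat, map_ofNat] at h2
    exact absurd h2 (by decide)
  have hy0 : y / 36 ≠ 0 := by
    intro h0
    have hy : y = 0 := by linarith
    rw [hy] at e
    have hx : x = -18 * (s : ℚ) := by rw [← hss]; ring
    have h1 : (9 : OO 7) * s ^ 3 - 13 * s ^ 2 + 15 * s - 9 = 0 := Subtype.ext (by
      have : (((9 : OO 7) * s ^ 3 - 13 * s ^ 2 + 15 * s - 9 : OO 7) : ℚ) =
        9 * (s : ℚ) ^ 3 - 13 * (s : ℚ) ^ 2 + 15 * s - 9 := rfl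
      rw [this]
      rw [hx] at e
      change _ = (0 : ℚ)
      linear_combination e / 648)
    have h2 := congrArg (rd 7) h1
    simp only [map_sub, map_add, map_mul, map_zero, map_pow, map_ofNat, hs5] at h2
    exact absurd h2 (by decide)
  have hcurve : -2 * (y / 36) ^ 2 = 9 * (-x / 18) ^ 3 - 13 * (-x / 18) ^ 2 + 15 * (-x / 18) - 9 := by
    linear_combination -e / 648
  have hfm := fm_pos (-x / 18)
  have hfp := fp_pos (-x / 18)
  have hn0 : nn x ≠ 0 := by unfold nn; positivity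
  obtain ⟨N, t, hN, ht, h1, h2⟩ := squarefree_part hn0
  rcases lt_or_gt_of_ne hn0 with hneg | hpos
  · have h3 := h2 hneg
    have h4 := four_points (m := -(N : ℚ)) hcurve hs0 hy0 h37 ht h3 hgood
    rw [En_neg] at h4
    exact ⟨N, t, ⟨hN, h4⟩, ht, Or.inr h3⟩
  · have h3 := h1 hpos
    have h4 := four_points (m := (N : ℚ)) hcurve hs0 hy0 h37 ht h3 hgood
    refine ⟨N, t, ⟨hN, h4⟩, ht, Or.inl ⟨h3, ?_⟩⟩
    unfold nn at hpos
    have h5 : 0 < 3 * (-x / 18) := by
      by_contra hc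
      push Not at hc
      have h6 : 3 * (-x / 18) * (fm (-x / 18) * fp (-x / 18)) ≤ 0 :=
        mul_nonpos_of_nonpos_of_nonneg hc (mul_pos hfm hfp).le
      have h7 : 3 * (-x / 18) * fm (-x / 18) * fp (-x / 18) =
        3 * (-x / 18) * (fm (-x / 18) * fp (-x / 18)) := by ring
      linarith
    linarith

/-- The twist parameter as an integral element. -/
def nnO {p : ℕ} [Fact p.Prime] (s : OO p) : OO p :=
  3 * s * (3 * s ^ 2 - 2 * s + 3) * (3 * s ^ 2 + 2 * s + 3)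

theorem rd_nnO {p : ℕ} [Fact p.Prime] (s : OO p) (hs : (72 : ZMod p) * rd p s = 31) :
    (72 * 5184 ^ 2 : ZMod p) * rd p (nnO s) = 3 * 31 * 13971 * 22899 := by
  unfold nnO
  simp only [map_mul, map_add, map_sub, map_pow, map_ofNat]
  have h1 : (5184 : ZMod p) * (3 * rd p s ^ 2 - 2 * rd p s + 3) = 13971 := by
    have : (5184 : ZMod p) * (3 * rd p s ^ 2 - 2 * rd p s + 3) =
        3 * (72 * rd p s) ^ 2 - 144 * (72 * rd p s) + 3 * 5184 := by ring
    rw [this, hs]; norm_num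
  have h2 : (5184 : ZMod p) * (3 * rd p s ^ 2 + 2 * rd p s + 3) = 22899 := by
    have : (5184 : ZMod p) * (3 * rd p s ^ 2 + 2 * rd p s + 3) =
        3 * (72 * rd p s) ^ 2 + 144 * (72 * rd p s) + 3 * 5184 := by ring
    rw [this, hs]; norm_num
  calc (72 * 5184 ^ 2 : ZMod p) * (3 * rd p s * (3 * rd p s ^ 2 - 2 * rd p s + 3) *
        (3 * rd p s ^ 2 + 2 * rd p s + 3)) = 3 * (72 * rd p s) *
        (5184 * (3 * rd p s ^ 2 - 2 * rd p s + 3)) *
        (5184 * (3 * rd p s ^ 2 + 2 * rd p s + 3)) := by ring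
    _ = 3 * 31 * 13971 * 22899 := by rw [hs, h1, h2]

theorem natCast_ne_zero_of_lt {p n : ℕ} (h0 : 0 < n) (h : n < p) : (n : ZMod p) ≠ 0 := by
  intro h1
  rw [ZMod.natCast_eq_zero_iff] at h1
  exact absurd (Nat.le_of_dvd h0 h1) (not_le.2 h)

theorem mod_neg_one {l M N : ℕ} (hN : 0 < N) (hd : N ∣ M) (h : 4 * M ∣ l + 1) :
    l % (4 * N) = 4 * N - 1 := by
  obtain ⟨k, hk⟩ := (Nat.mul_dvd_mul_left 4 hd).trans h
  have hk0 : k ≠ 0 := by rintro rfl; omega
  obtain ⟨j, rfl⟩ := Nat.exists_eq_succ_of_ne_zero hk0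
  have h1 : l = (4 * N - 1) + 4 * N * j := by
    have : 4 * N * j.succ = 4 * N * j + 4 * N := by rw [Nat.mul_succ]
    omega
  rw [h1, Nat.add_mul_mod_self_left]
  exact Nat.mod_eq_of_lt (by omega)

theorem RR_infinite : RR.Infinite := by
  intro hfin
  set F := hfin.toFinset with hF
  set M := ∏ N ∈ F, N with hM
  have hpos : ∀ N ∈ F, 0 < N := by
    intro N hN
    rw [hF, Set.Finite.mem_toFinset] at hN
    exact Nat.pos_of_ne_zero hN.1.ne_zero
  have hMpos : 0 < M := Finset.prod_pos hpos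
  -- the prime
  obtain ⟨l, hlgt, hlp, hlmod⟩ := Nat.forall_exists_prime_gt_and_modEq
    (M + 72 * (31 * (13971 * 22899))) (q := 4 * M) (a := 4 * M - 1) (by omega) (by
      have h1 : 4 * M = (4 * M - 1) + 1 := by omega
      have h2 : (4 * M - 1).Coprime ((4 * M - 1) + 1) :=
        Nat.coprime_self_add_right.2 (Nat.coprime_one_right _)
      rwa [← h1] at h2)
  have hldvd : 4 * M ∣ l + 1 := by
    have h1 : l + 1 ≡ (4 * M - 1) + 1 [MOD 4 * M] := hlmod.add_right 1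
    have h2 : (4 * M - 1) + 1 = 4 * M := by omega
    rw [h2] at h1
    exact (Nat.modEq_zero_iff_dvd.1 (h1.trans (by simp [Nat.ModEq])))
  have hfact : Fact l.Prime := ⟨hlp⟩
  have hl3 : l % 4 = 3 := by
    obtain ⟨k, hk⟩ := hldvd
    have : 4 * M * k = 4 * (M * k) := by ring
    omega
  have hneg : ¬ IsSquare (-1 : ZMod l) := by
    rw [ZMod.exists_sq_eq_neg_one_iff]; omega
  have hsq : ∀ N ∈ F, ∃ c : ZMod l, c ≠ 0 ∧ (N : ZMod l) = c * c := by
    intro N hN
    have h1 : J(N | l) = 1 := jac_one (hpos N hN)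
      (mod_neg_one (hpos N hN) (Finset.dvd_prod_of_mem _ hN) hldvd)
    obtain ⟨c, hc⟩ := ZMod.isSquare_of_jacobiSym_eq_one h1
    rw [Int.cast_natCast] at hc
    refine ⟨c, ?_, hc⟩
    rintro rfl
    have hNM : N ≤ M := Nat.le_of_dvd hMpos (Finset.dvd_prod_of_mem _ hN)
    exact natCast_ne_zero_of_lt (p := l) (hpos N hN) (by omega) (by rw [hc]; ring)
  have hc0 : (3 * 31 * 13971 * 22899 : ZMod l) ≠ 0 := by
    have h1 : (3 * 31 * 13971 * 22899 : ZMod l) = ((29752739397 : ℕ) : ZMod l) := by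
      push_cast; norm_num
    rw [h1]
    exact natCast_ne_zero_of_lt (by norm_num) (by omega)
  have hd0 : (72 * 5184 ^ 2 : ZMod l) ≠ 0 := by
    have h1 : (72 * 5184 ^ 2 : ZMod l) = ((1934917632 : ℕ) : ZMod l) := by
      push_cast; norm_num
    rw [h1]
    exact natCast_ne_zero_of_lt (by norm_num) (by omega)
  have hl72 : ¬ l ∣ 72 := fun h => absurd (Nat.le_of_dvd (by norm_num) h) (by omega)
  -- local squares
  have key : ∀ x y : ℚ, y ^ 2 = x ^ 3 + 26 * x ^ 2 + 540 * x + 5832 →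
      pv 7 (x - (-31 / 4)) < 1 → pv 71 (x - (-31 / 4)) < 1 → pv l (x - (-31 / 4)) < 1 →
      ∃ z : ZMod l, z ≠ 0 ∧ ((x < 0 ∧ (3 * 31 * 13971 * 22899 : ZMod l) = 72 * 5184 ^ 2 * (z * z)) ∨
        (nn x < 0 ∧ (3 * 31 * 13971 * 22899 : ZMod l) = -(72 * 5184 ^ 2 * (z * z)))) := by
    intro x y e h7 h71 hl
    obtain ⟨s, hs, hs'⟩ := s_facts (p := l) hl72 hl
    have hnn : nn x = ((nnO s : OO l) : ℚ) := by
      unfold nn fm fp
      rw [← hs]; rfl
    have hr := rd_nnO s hs'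
    have hrne : rd l (nnO s) ≠ 0 := by
      intro h0
      rw [h0, mul_zero] at hr
      exact hc0 hr.symm
    have hpn : pv l (nn x) = 1 := by
      refine le_antisymm ?_ ?_
      · rw [hnn]; exact (nnO s).2
      · by_contra hlt
        push Not at hlt
        rw [hnn] at hlt
        exact hrne ((rd_eq_zero _).2 hlt)
    obtain ⟨N, t, hN, ht, hcase⟩ := mem_RR e h7 h71
    have hNF : N ∈ F := by rw [hF, Set.Finite.mem_toFinset]; exact hN
    have hNM : N ≤ M := Nat.le_of_dvd hMpos (Finset.dvd_prod_of_mem _ hNF)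
    have hNpos := hpos N hNF
    have hpN : pv l (N : ℚ) = 1 :=
      pv_nat_one (fun h => absurd (Nat.le_of_dvd hNpos h) (by omega))
    have hpt : pv l t = 1 := by
      have h1 : pv l ((N : ℚ) * t ^ 2) = 1 := by
        rcases hcase with ⟨h, -⟩ | h
        · rw [← h, hpn]
        · have : (N : ℚ) * t ^ 2 = - nn x := by rw [h]; ring
          rw [this, pv_neg, hpn]
      rw [pv_mul, hpN, one_mul, pv_pow] at h1
      exact (pow_eq_one_iff_of_nonneg (pv_nonneg l t) two_ne_zero).1 h1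
    have htO : t ∈ OO l := hpt.le
    obtain ⟨c, hc, hcN⟩ := hsq N hNF
    have htne : rd l ⟨t, htO⟩ ≠ 0 := by
      intro h0
      rw [rd_eq_zero] at h0
      change pv l t < 1 at h0
      rw [hpt] at h0
      exact absurd h0 (lt_irrefl _)
    have hNrd : rd l (N : OO l) = (N : ZMod l) := map_natCast (rd l) N
    refine ⟨c * rd l ⟨t, htO⟩, mul_ne_zero hc htne, ?_⟩
    rcases hcase with ⟨h, hx⟩ | h
    · left
      refine ⟨hx, ?_⟩
      have h1 : nnO s = (N : OO l) * ⟨t, htO⟩ ^ 2 := Subtype.ext (by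
        rw [← hnn, h]; rfl)
      rw [← hr, h1, map_mul, map_pow, hNrd, hcN]; ring
    · right
      have h0 : nn x < 0 := by
        rw [h]
        have : 0 < (N : ℚ) := by exact_mod_cast hNpos
        have h2 : 0 < t ^ 2 := by positivity
        nlinarith [mul_pos this h2]
      refine ⟨h0, ?_⟩
      have h1 : nnO s = -((N : OO l) * ⟨t, htO⟩ ^ 2) := Subtype.ext (by
        rw [← hnn, h]
        have : ((-((N : OO l) * ⟨t, htO⟩ ^ 2) : OO l) : ℚ) = -((N : ℚ) * t ^ 2) := rfl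
        rw [this]; ring)
      rw [← hr, h1, map_neg, map_mul, map_pow, hNrd, hcN]; ring
  -- kernel elements
  have hbad7 : pv 7 17950896 = 1 := by
    exact_mod_cast pv_nat_one (p := 7) (n := 17950896) (by norm_num)
  have hbad71 : pv 71 17950896 = 1 := by
    exact_mod_cast pv_nat_one (p := 71) (n := 17950896) (by norm_num)
  have hbadl : pv l 17950896 = 1 := by
    have := pv_nat_one (p := l) (n := 17950896)
      (fun h => absurd (Nat.le_of_dvd (by norm_num) h) (by omega))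
    exact_mod_cast this
  obtain ⟨r1, hr1, hk1⟩ := exists_ker (p := 7) P0 hbad7
  obtain ⟨r2, hr2, hk2⟩ := exists_ker (p := 71) P0 hbad71
  obtain ⟨r3, hr3, hk3⟩ := exists_ker (p := l) P0 hbadl
  have hmemx2 : ∀ (p : ℕ) [Fact p.Prime], ¬ p ∣ 4 → (-31 / 4 : ℚ) ∈ OO p := by
    intro p _ hp4
    have h4 : pv p ((4 : ℕ) : ℚ) = 1 := pv_nat_one hp4
    apply mem_of_mul h4
    have : ((4 : ℕ) : ℚ) * (-31 / 4) = -31 := by norm_num
    rw [this]
    exact neg_mem (ofNat_mem_OO p 31)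
  have hl4 : ¬ l ∣ 4 := fun h => absurd (Nat.le_of_dvd (by norm_num) h) (by omega)
  have hall : ∀ k : ℕ, ∃ (x y : ℚ) (h : BB.Nonsingular x y),
      2 • P0 + k • ((r1 * r2 * r3) • P0) = Point.some x y h ∧ pv 7 (x - (-31 / 4)) < 1 ∧
        pv 71 (x - (-31 / 4)) < 1 ∧ pv l (x - (-31 / 4)) < 1 := by
    intro k
    obtain ⟨x, y, h, hP, hx⟩ := add_ker_mul (p := 7) two_P0 (hmemx2 7 (by norm_num)) hk1
      (k * (r2 * r3))
    obtain ⟨x', y', h', hP', hx'⟩ := add_ker_mul (p := 71) two_P0 (hmemx2 71 (by norm_num)) hk2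
      (k * (r1 * r3))
    obtain ⟨x'', y'', h'', hP'', hx''⟩ := add_ker_mul (p := l) two_P0 (hmemx2 l hl4) hk3
      (k * (r1 * r2))
    rw [← mul_nsmul'] at hP hP' hP''
    have e1 : k * (r2 * r3) * r1 = k * (r1 * r2 * r3) := by ring
    have e2 : k * (r1 * r3) * r2 = k * (r1 * r2 * r3) := by ring
    have e3 : k * (r1 * r2) * r3 = k * (r1 * r2 * r3) := by ring
    rw [e1] at hP
    rw [e2] at hP'
    rw [e3] at hP''
    have hx1 : x = x' := by
      have := hP.symm.trans hP'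
      injection this
    have hx2 : x = x'' := by
      have := hP.symm.trans hP''
      injection this
    refine ⟨x, y, h, ?_, hx, ?_, ?_⟩
    · rw [← mul_nsmul']; exact hP
    · rw [hx1]; exact hx'
    · rw [hx2]; exact hx''
  -- the base value is a square
  obtain ⟨z0, hz0, hz0'⟩ : ∃ z : ZMod l, z ≠ 0 ∧
      (3 * 31 * 13971 * 22899 : ZMod l) = 72 * 5184 ^ 2 * (z * z) := by
    obtain ⟨z, hz, hzz⟩ := key (-31 / 4) (419 / 8) (by norm_num) (by rw [sub_self, pv_zero]; norm_num)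
      (by rw [sub_self, pv_zero]; norm_num) (by rw [sub_self, pv_zero]; norm_num)
    rcases hzz with h | h
    · exact ⟨z, hz, h.2⟩
    · exfalso
      have := h.1
      unfold nn fm fp at this
      norm_num at this
  have hrpos : 0 < r1 * r2 * r3 := by positivity
  apply no_arc (2 • P0) ((r1 * r2 * r3) • P0)
  · intro k hk
    rw [← mul_nsmul']
    exact P0_inf _ (by positivity)
  · intro k
    obtain ⟨x, y, h, hP, h7, h71, hl⟩ := hall k
    refine ⟨x, y, h, hP, ?_⟩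
    obtain ⟨z, hz, hzz⟩ := key x y (eqn_iff.1 h.1) h7 h71 hl
    rcases hzz with h1 | h1
    · exact h1.1
    · exfalso
      apply hneg
      refine ⟨z0 / z, ?_⟩
      have h2 : (72 * 5184 ^ 2 : ZMod l) * (z0 * z0 + z * z) = 0 := by
        rw [mul_add, ← hz0']
        linear_combination h1.2
      rcases mul_eq_zero.1 h2 with h3 | h3
      · exact absurd h3 hd0
      · field_simp
        linear_combination -h3

end H48.CN
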