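import Pool.Agent.H48.CN.Padic

/-!
# The point `(27, 243)` has infinite order
-/

namespace H48.CN

open WeierstrassCurve WeierstrassCurve.Affine

theorem nonsing_BB {x y : ℚ} (e : y ^ 2 = x ^ 3 + 26 * x ^ 2 + 540 * x + 5832) :
    BB.Nonsingular x y := by
  apply nonsing_of e
  right
  nlinarith [sq_nonneg (3 * x + 26)]

/-- The base point. -/
noncomputable def P0 : BB.Point := Point.some 27 243 (nonsing_BB (by norm_num))

theorem two_P0 : 2 • P0 = Point.some (-31 / 4) (419 / 8) (nonsing_BB (by norm_num)) := by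
  have hne : ¬((27 : ℚ) = 27 ∧ (243 : ℚ) = -243) := by norm_num
  have hns : BB.Nonsingular 27 243 := nonsing_BB (by norm_num)
  obtain ⟨l, x', y', h', hs, -, s2, s3, s4⟩ := add_rel hns hns hne
  have hl : l = 17 / 2 := by linarith
  subst hl
  have hx' : x' = -31 / 4 := by rw [s3]; norm_num
  have hy' : y' = 419 / 8 := by rw [s4, hx']; norm_num
  subst hx'
  subst hy'
  rw [two_nsmul]
  exact hs

instance fact2 : Fact (Nat.Prime 2) := ⟨Nat.prime_two⟩

theorem pv_two_odd (n : ℕ) (hn : ¬ 2 ∣ n) : pv 2 (n : ℚ) = 1 := by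
  unfold pv
  rw [Rat.cast_natCast, Padic.norm_natCast_eq_one_iff]
  exact (Nat.Prime.coprime_iff_not_dvd Nat.prime_two).2 hn

theorem pv_two_two : pv 2 2 = 1 / 2 := by
  unfold pv
  have := Padic.norm_p (p := 2)
  push_cast at this ⊢
  rw [this]; norm_num

theorem double_two {x y : ℚ} {h : BB.Nonsingular x y} (hx : 1 < pv 2 x) :
    ∃ (x' y' : ℚ) (h' : BB.Nonsingular x' y'),
      Point.some x y h + Point.some x y h = Point.some x' y' h' ∧ pv 2 x' = 4 * pv 2 x := by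
  have e := eqn_iff.1 h.1
  have hY := Y_large e hx
  have hy0 : y ≠ 0 := by
    rintro rfl
    rw [pv_zero] at hY
    have : 0 < pv 2 x ^ 3 := by positivity
    rw [← hY] at this
    norm_num at this
  have hne : ¬(x = x ∧ y = -y) := by
    rintro ⟨-, h2⟩; exact hy0 (by linarith)
  obtain ⟨l, x', y', h', hs, -, s2, s3, -⟩ := add_rel h h hne
  refine ⟨x', y', h', hs, ?_⟩
  set a := pv 2 x with ha
  have ha0 : 0 < a := by linarith
  have h3 : pv 2 3 = 1 := by exact_mod_cast pv_two_odd 3 (by norm_num)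
  have hd : pv 2 (3 * x ^ 2 + (52 * x + 540)) = a ^ 2 := by
    have h1 : pv 2 (3 * x ^ 2) = a ^ 2 := by rw [pv_mul, h3, one_mul, pv_pow]
    rw [pv_add_eq, h1]
    rw [h1]
    have haa : a < a ^ 2 := by nlinarith
    refine pv_add_lt 2 ?_ ?_
    · rw [pv_mul]
      have : pv 2 52 ≤ 1 := ofNat_mem_OO 2 52
      calc _ ≤ 1 * a := mul_le_mul_of_nonneg_right this ha0.le
        _ < a ^ 2 := by rw [one_mul]; exact haa
    · have : pv 2 540 ≤ 1 := ofNat_mem_OO 2 540
      linarith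
  have hs2 : l * (2 * y) = 3 * x ^ 2 + (52 * x + 540) := by linear_combination s2
  rw [← hs2, pv_mul, pv_mul, pv_two_two] at hd
  have hl : pv 2 (l ^ 2) = 4 * a := by
    rw [pv_pow]
    set b := pv 2 y
    set c := pv 2 l
    have h5 : c * b = 2 * a ^ 2 := by linarith
    have h6 : c ^ 2 * b ^ 2 = 4 * a ^ 4 := by
      have : c ^ 2 * b ^ 2 = (c * b) ^ 2 := by ring
      rw [this, h5]; ring
    rw [hY] at h6
    have h7 : a ^ 3 ≠ 0 := by positivity
    have h8 : (c ^ 2 - 4 * a) * a ^ 3 = 0 := by linear_combination h6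
    rcases mul_eq_zero.1 h8 with h9 | h9
    · linarith
    · exact absurd h9 h7
  have hx' : x' = l ^ 2 + (-(26 + 2 * x)) := by rw [s3]; ring
  rw [hx', pv_add_eq, hl]
  rw [hl, pv_neg]
  refine pv_add_lt 2 ?_ ?_
  · have : pv 2 26 ≤ 1 := ofNat_mem_OO 2 26
    linarith
  · rw [pv_mul, pv_two_two]; linarith

theorem pow_P0 (j : ℕ) : ∃ (x y : ℚ) (h : BB.Nonsingular x y),
    2 ^ j • (2 • P0) = Point.some x y h ∧ pv 2 x = 4 ^ (j + 1) := by
  induction j with
  | zero =>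
    refine ⟨-31 / 4, 419 / 8, _, by rw [pow_zero, one_nsmul]; exact two_P0, ?_⟩
    have h1 : (-31 / 4 : ℚ) * (2 * 2) = -((31 : ℕ) : ℚ) := by norm_num
    have h2 : pv 2 ((-31 / 4 : ℚ) * (2 * 2)) = 1 := by
      rw [h1, pv_neg, pv_two_odd 31 (by norm_num)]
    rw [pv_mul, pv_mul, pv_two_two] at h2
    norm_num
    linarith
  | succ j ih =>
    obtain ⟨x, y, h, hP, hx⟩ := ih
    have h1 : 1 < pv 2 x := by
      rw [hx]; exact one_lt_pow₀ (by norm_num) (Nat.succ_ne_zero j)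
    obtain ⟨x', y', h', hs, hd⟩ := double_two (h := h) h1
    refine ⟨x', y', h', ?_, ?_⟩
    · rw [pow_succ, mul_nsmul, two_nsmul, hP, hs]
    · rw [hd, hx]; ring

theorem P0_inf (k : ℕ) (hk : 0 < k) : k • P0 ≠ 0 := by
  intro h0
  have : NeZero k := ⟨hk.ne'⟩
  obtain ⟨i, j, hij, hh⟩ := Finite.exists_ne_map_eq_of_infinite
    (fun i : ℕ => ((2 ^ i : ℕ) : ZMod k))
  rw [ZMod.natCast_eq_natCast_iff] at hh
  have hZ : k • (2 • P0) = 0 := by rw [smul_comm, h0, nsmul_zero]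
  have hdvd : addOrderOf (2 • P0) ∣ k := addOrderOf_dvd_of_nsmul_eq_zero hZ
  have heq : 2 ^ i • (2 • P0) = 2 ^ j • (2 • P0) := by
    rw [nsmul_eq_nsmul_iff_modEq]
    exact hh.of_dvd hdvd
  obtain ⟨x, y, h, hP, hx⟩ := pow_P0 i
  obtain ⟨x', y', h', hP', hx'⟩ := pow_P0 j
  rw [hP, hP'] at heq
  have hxx : x = x' := by injection heq
  rw [hxx, hx'] at hx
  have := pow_right_injective₀ (show (0 : ℝ) < 4 by norm_num) (by norm_num) hx
  omega

end H48.CN
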