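import Pool.Agent.H48.CN.RealArc

/-!
# Reduction modulo `p` of the multiples of a point on `Y^2 = X^3 + 26 X^2 + 540 X + 5832`

Everything is expressed through the `p`-adic absolute value of the coordinates.
-/

namespace H48.CN

open WeierstrassCurve WeierstrassCurve.Affine

section abs

variable (p : ℕ) [hp : Fact p.Prime]

/-- The `p`-adic absolute value of a rational number. -/
noncomputable def pv (r : ℚ) : ℝ := ‖(r : ℚ_[p])‖

theorem pv_nonneg (r : ℚ) : 0 ≤ pv p r := norm_nonneg _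

theorem pv_mul (a b : ℚ) : pv p (a * b) = pv p a * pv p b := by
  unfold pv; rw [Rat.cast_mul]; exact norm_mul _ _

theorem pv_pow (a : ℚ) (n : ℕ) : pv p (a ^ n) = pv p a ^ n := by
  unfold pv; rw [Rat.cast_pow]; exact norm_pow _ _

theorem pv_neg (a : ℚ) : pv p (-a) = pv p a := by
  unfold pv; rw [Rat.cast_neg]; exact norm_neg _

theorem pv_add_le (a b : ℚ) : pv p (a + b) ≤ max (pv p a) (pv p b) := by
  unfold pv; rw [Rat.cast_add]; exact Padic.nonarchimedean _ _

theorem pv_int (n : ℤ) : pv p (n : ℚ) ≤ 1 := by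
  unfold pv; rw [Rat.cast_intCast]; exact Padic.norm_int_le_one n

theorem pv_zero : pv p 0 = 0 := by unfold pv; simp

theorem pv_one : pv p 1 = 1 := by unfold pv; simp

theorem pv_eq_zero {a : ℚ} : pv p a = 0 ↔ a = 0 := by
  unfold pv; rw [norm_eq_zero, Rat.cast_eq_zero]

theorem pv_add_lt {a b : ℚ} {c : ℝ} (ha : pv p a < c) (hb : pv p b < c) : pv p (a + b) < c :=
  lt_of_le_of_lt (pv_add_le p a b) (max_lt ha hb)

theorem pv_add_le' {a b : ℚ} {c : ℝ} (ha : pv p a ≤ c) (hb : pv p b ≤ c) : pv p (a + b) ≤ c :=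
  (pv_add_le p a b).trans (max_le ha hb)

theorem pv_sub_comm (a b : ℚ) : pv p (a - b) = pv p (b - a) := by
  rw [← pv_neg, neg_sub]

theorem pv_add_eq {a b : ℚ} (h : pv p b < pv p a) : pv p (a + b) = pv p a := by
  unfold pv at *
  rw [Rat.cast_add, Padic.add_eq_max_of_ne h.ne', max_eq_left h.le]

/-- The valuation ring in `ℚ`. -/
def OO : Subring ℚ where
  carrier := {r | pv p r ≤ 1}
  mul_mem' := fun {a b} ha hb => by
    change pv p (a * b) ≤ 1
    rw [pv_mul]; exact mul_le_one₀ ha (pv_nonneg p b) hb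
  one_mem' := (pv_one p).le
  add_mem' := fun {a b} ha hb => pv_add_le' p ha hb
  zero_mem' := by change pv p 0 ≤ 1; rw [pv_zero]; norm_num
  neg_mem' := fun {a} ha => by change pv p (-a) ≤ 1; rw [pv_neg]; exact ha

theorem mem_OO {r : ℚ} : r ∈ OO p ↔ pv p r ≤ 1 := Iff.rfl

theorem int_mem_OO (n : ℤ) : (n : ℚ) ∈ OO p := pv_int p n

theorem ofNat_mem_OO (n : ℕ) [n.AtLeastTwo] : (OfNat.ofNat n : ℚ) ∈ OO p := by
  simp

/-- Multiplying an element of absolute value `< 1` by an integral one. -/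
theorem pv_mul_lt {a b : ℚ} (ha : pv p a < 1) (hb : b ∈ OO p) : pv p (a * b) < 1 := by
  rw [pv_mul]
  calc pv p a * pv p b ≤ pv p a * 1 := mul_le_mul_of_nonneg_left hb (pv_nonneg p a)
    _ < 1 := by rw [mul_one]; exact ha

end abs

variable {p : ℕ} [hp : Fact p.Prime]

/-- The cubic. -/
theorem cubic_mem {x : ℚ} (hx : x ∈ OO p) : x ^ 3 + 26 * x ^ 2 + 540 * x + 5832 ∈ OO p :=
  add_mem (add_mem (add_mem (pow_mem hx 3) (mul_mem (ofNat_mem_OO p 26) (pow_mem hx 2)))
    (mul_mem (ofNat_mem_OO p 540) hx)) (ofNat_mem_OO p 5832)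

theorem y_mem {x y : ℚ} (e : y ^ 2 = x ^ 3 + 26 * x ^ 2 + 540 * x + 5832) (hx : x ∈ OO p) :
    y ∈ OO p := by
  have h : pv p y ^ 2 ≤ 1 := by
    rw [← pv_pow, e]; exact cubic_mem hx
  rw [mem_OO]
  exact (pow_le_one_iff_of_nonneg (pv_nonneg p y) two_ne_zero).1 h

theorem Y_large {X Y : ℚ} (e : Y ^ 2 = X ^ 3 + 26 * X ^ 2 + 540 * X + 5832)
    (hX : 1 < pv p X) : pv p Y ^ 2 = pv p X ^ 3 := by
  rw [← pv_pow, ← pv_pow, e]
  have h1 : X ^ 3 + 26 * X ^ 2 + 540 * X + 5832 = X ^ 3 + (26 * X ^ 2 + (540 * X + 5832)) := by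
    ring
  rw [h1]
  apply pv_add_eq
  have h2 : pv p X ^ 2 < pv p X ^ 3 := pow_lt_pow_right₀ hX (by norm_num)
  rw [pv_pow]
  refine lt_of_le_of_lt ?_ h2
  have hXX : pv p X ≤ pv p X ^ 2 := by nlinarith
  have h26 : pv p 26 ≤ 1 := ofNat_mem_OO p 26
  have h540 : pv p 540 ≤ 1 := ofNat_mem_OO p 540
  have h5832 : pv p 5832 ≤ 1 := ofNat_mem_OO p 5832
  apply pv_add_le'
  · rw [pv_mul, pv_pow]
    calc pv p 26 * pv p X ^ 2 ≤ 1 * pv p X ^ 2 :=
          mul_le_mul_of_nonneg_right h26 (sq_nonneg _)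
      _ = pv p X ^ 2 := one_mul _
  · apply pv_add_le'
    · rw [pv_mul]
      calc pv p 540 * pv p X ≤ 1 * pv p X := mul_le_mul_of_nonneg_right h540 (pv_nonneg p X)
        _ ≤ pv p X ^ 2 := by rw [one_mul]; exact hXX
    · nlinarith

/-- Adding a point of the kernel of reduction does not change the reduction. -/
theorem red_add {x y X Y l x' : ℚ} (e1 : y ^ 2 = x ^ 3 + 26 * x ^ 2 + 540 * x + 5832)
    (e2 : Y ^ 2 = X ^ 3 + 26 * X ^ 2 + 540 * X + 5832) (r1 : l * (x - X) = y - Y)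
    (r3 : x' = l ^ 2 - 26 - x - X) (hx : x ∈ OO p) (hX : 1 < pv p X) : pv p (x' - x) < 1 := by
  have hy := y_mem e1 hx
  have hY := Y_large e2 hX
  have q2 : (x' - x) * (x - X) ^ 2 =
      (3 * x ^ 2 + 52 * x + 540) * X + ((-(2 * y)) * Y +
        (5832 + y ^ 2 - (26 + 2 * x) * x ^ 2)) := by
    rw [r3]
    linear_combination (l * (x - X) + (y - Y)) * r1 + e2
  have hxX : pv p (x - X) = pv p X := by
    have : x - X = -X + x := by ring
    rw [this, pv_add_eq, pv_neg]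
    rw [pv_neg]; exact lt_of_le_of_lt hx hX
  set a := pv p X with ha
  set b := pv p Y with hb
  have hb0 : 0 ≤ b := pv_nonneg p Y
  have ha1 : 1 < a := hX
  have hab : a ≤ b := by
    by_contra h
    push Not at h
    have h1 : b ^ 2 < a ^ 2 := pow_lt_pow_left₀ h hb0 two_ne_zero
    rw [hY] at h1
    have h2 : a ^ 2 ≤ a ^ 3 := pow_le_pow_right₀ ha1.le (by norm_num)
    linarith
  have hba : b < a ^ 2 := by
    by_contra h
    push Not at h
    have h1 : (a ^ 2) ^ 2 ≤ b ^ 2 := pow_le_pow_left₀ (by positivity) h 2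
    rw [hY] at h1
    have h2 : a ^ 3 < a ^ 4 := pow_lt_pow_right₀ ha1 (by norm_num)
    nlinarith
  have hbound : pv p ((x' - x) * (x - X) ^ 2) ≤ b := by
    rw [q2]
    apply pv_add_le'
    · rw [pv_mul]
      have h1 : pv p (3 * x ^ 2 + 52 * x + 540) ≤ 1 :=
        add_mem (add_mem (mul_mem (ofNat_mem_OO p 3) (pow_mem hx 2))
          (mul_mem (ofNat_mem_OO p 52) hx)) (ofNat_mem_OO p 540)
      calc _ ≤ 1 * a := mul_le_mul_of_nonneg_right h1 (by linarith)
        _ ≤ b := by rw [one_mul]; exact hab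
    · apply pv_add_le'
      · rw [pv_mul]
        have h1 : pv p (-(2 * y)) ≤ 1 := neg_mem (mul_mem (ofNat_mem_OO p 2) hy)
        calc _ ≤ 1 * b := mul_le_mul_of_nonneg_right h1 hb0
          _ = b := one_mul _
      · have h1 : pv p (5832 + y ^ 2 - (26 + 2 * x) * x ^ 2) ≤ 1 :=
          sub_mem (add_mem (ofNat_mem_OO p 5832) (pow_mem hy 2))
            (mul_mem (add_mem (ofNat_mem_OO p 26) (mul_mem (ofNat_mem_OO p 2) hx)) (pow_mem hx 2))
        linarith
  rw [pv_mul, pv_pow, hxX] at hbound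
  by_contra h
  push Not at h
  have h1 : a ^ 2 ≤ pv p (x' - x) * a ^ 2 := by
    have : 0 ≤ a ^ 2 := sq_nonneg a
    nlinarith
  linarith

/-- The difference of two congruent points is in the kernel of reduction. -/
theorem red_sub {x y x₂ y₂ l x' : ℚ} (e1 : y ^ 2 = x ^ 3 + 26 * x ^ 2 + 540 * x + 5832)
    (r1 : l * (x - x₂) = y + y₂)
    (r2 : l * (y - y₂) = x ^ 2 + x * x₂ + x₂ ^ 2 + 26 * (x + x₂) + 540)
    (r3 : x' = l ^ 2 - 26 - x - x₂) (hx : x ∈ OO p) (hx2 : x₂ ∈ OO p)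
    (h : pv p (x - x₂) < 1) (h' : pv p (y - y₂) < 1) (hbad : pv p 17950896 = 1) :
    1 < pv p x' := by
  have hy := y_mem e1 hx
  have hl : 1 < pv p l := by
    by_contra hl
    push Not at hl
    have a1 : pv p (y + y₂) < 1 := by
      rw [← r1, mul_comm]; exact pv_mul_lt p h hl
    have a2 : pv p (2 * y) < 1 := by
      have : 2 * y = (y + y₂) + (y - y₂) := by ring
      rw [this]; exact pv_add_lt p a1 h'
    have h2 : pv p 2 = 1 := by
      refine le_antisymm (ofNat_mem_OO p 2) ?_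
      have h3 : (17950896 : ℚ) = 2 * 8975448 := by norm_num
      rw [h3, pv_mul] at hbad
      have h4 : pv p 8975448 ≤ 1 := ofNat_mem_OO p 8975448
      have h5 := pv_nonneg p 2
      nlinarith
    have a3 : pv p y < 1 := by
      rw [pv_mul, h2, one_mul] at a2; exact a2
    have a4 : pv p (x ^ 3 + 26 * x ^ 2 + 540 * x + 5832) < 1 := by
      rw [← e1, sq]; exact pv_mul_lt p a3 hy
    have a5 : pv p (3 * x ^ 2 + 52 * x + 540) < 1 := by
      have : 3 * x ^ 2 + 52 * x + 540 = (y - y₂) * l + (x - x₂) * (2 * x + x₂ + 26) := by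
        linear_combination -r2
      rw [this]
      exact pv_add_lt p (pv_mul_lt p h' hl) (pv_mul_lt p h
        (add_mem (add_mem (mul_mem (ofNat_mem_OO p 2) hx) hx2) (ofNat_mem_OO p 26)))
    have a6 : pv p 17950896 < 1 := by
      have : (17950896 : ℚ) = (x ^ 3 + 26 * x ^ 2 + 540 * x + 5832) * (1073 - 354 * x) +
          (3 * x ^ 2 + 52 * x + 540) * (21654 + 665 * x + 118 * x ^ 2) := by ring
      rw [this]
      exact pv_add_lt p
        (pv_mul_lt p a4 (sub_mem (ofNat_mem_OO p 1073) (mul_mem (ofNat_mem_OO p 354) hx)))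
        (pv_mul_lt p a5 (add_mem (add_mem (ofNat_mem_OO p 21654)
          (mul_mem (ofNat_mem_OO p 665) hx)) (mul_mem (ofNat_mem_OO p 118) (pow_mem hx 2))))
    linarith
  have hl2 : 1 < pv p (l ^ 2) := by
    rw [pv_pow]; exact one_lt_pow₀ hl two_ne_zero
  have h3 : x' = l ^ 2 + (-(26 + x + x₂)) := by rw [r3]; ring
  rw [h3, pv_add_eq]
  · exact hl2
  · refine lt_of_le_of_lt ?_ hl2
    exact neg_mem (add_mem (add_mem (ofNat_mem_OO p 26) hx) hx2)

/-- The kernel of reduction (including the point at infinity). -/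
def Ker (p : ℕ) [Fact p.Prime] (P : BB.Point) : Prop :=
  ∀ (x y : ℚ) (h : BB.Nonsingular x y), P = Point.some x y h → 1 < pv p x

theorem add_ker {P Q : BB.Point} {x y : ℚ} {h : BB.Nonsingular x y} (hP : P = Point.some x y h)
    (hx : x ∈ OO p) (hQ : Ker p Q) :
    ∃ (x' y' : ℚ) (h' : BB.Nonsingular x' y'), P + Q = Point.some x' y' h' ∧
      pv p (x' - x) < 1 := by
  rcases hQc : Q with _ | ⟨X, Y, hXY⟩
  · refine ⟨x, y, h, ?_, ?_⟩
    · change P + 0 = _
      rw [add_zero, hP]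
    · rw [sub_self, pv_zero]; norm_num
  · have hX := hQ X Y hXY hQc
    have hne : ¬(x = X ∧ y = -Y) := by
      rintro ⟨h1, -⟩
      rw [h1, mem_OO] at hx; linarith
    obtain ⟨l, x', y', h', hs, s1, -, s3, -⟩ := add_rel h hXY hne
    refine ⟨x', y', h', ?_, ?_⟩
    · rw [hP]; exact hs
    · exact red_add (eqn_iff.1 h.1) (eqn_iff.1 hXY.1) s1 s3 hx hX

theorem add_ker_mul {P Q : BB.Point} {x y : ℚ} {h : BB.Nonsingular x y}
    (hP : P = Point.some x y h) (hx : x ∈ OO p) (hQ : Ker p Q) (k : ℕ) :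
    ∃ (x' y' : ℚ) (h' : BB.Nonsingular x' y'), P + k • Q = Point.some x' y' h' ∧
      pv p (x' - x) < 1 := by
  induction k with
  | zero =>
    refine ⟨x, y, h, ?_, ?_⟩
    · rw [zero_nsmul, add_zero, hP]
    · rw [sub_self, pv_zero]; norm_num
  | succ k ih =>
    obtain ⟨x₁, y₁, h₁, hs, hd⟩ := ih
    have hx₁ : x₁ ∈ OO p := by
      have : x₁ = (x₁ - x) + x := by ring
      rw [this]; exact add_mem (le_of_lt hd : pv p (x₁ - x) ≤ 1) hx
    obtain ⟨x', y', h', hs', hd'⟩ := add_ker (p := p) (Q := Q) hs hx₁ hQ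
    refine ⟨x', y', h', ?_, ?_⟩
    · rw [← hs', succ_nsmul]; abel
    · have : x' - x = (x' - x₁) + (x₁ - x) := by ring
      rw [this]; exact pv_add_lt p hd' hd

/-- The valuation ring of `ℚ` inside the `p`-adic integers. -/
noncomputable def toZp (p : ℕ) [Fact p.Prime] : OO p →+* ℤ_[p] where
  toFun r := ⟨((r : ℚ) : ℚ_[p]), (mem_OO p).1 r.2⟩
  map_one' := Subtype.ext (by simp)
  map_zero' := Subtype.ext (by simp)
  map_add' a b := Subtype.ext
    (show (((a + b : OO p) : ℚ) : ℚ_[p]) = ((a : ℚ) : ℚ_[p]) + ((b : ℚ) : ℚ_[p]) by push_cast; rfl)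
  map_mul' a b := Subtype.ext
    (show (((a * b : OO p) : ℚ) : ℚ_[p]) = ((a : ℚ) : ℚ_[p]) * ((b : ℚ) : ℚ_[p]) by push_cast; rfl)

/-- The reduction of a `p`-integral rational number. -/
noncomputable def rd (p : ℕ) [Fact p.Prime] : OO p →+* ZMod p :=
  (PadicInt.toZMod).comp (toZp p)

theorem rd_eq_zero (a : OO p) : rd p a = 0 ↔ pv p (a : ℚ) < 1 := by
  have hk : ∀ z : ℤ_[p], PadicInt.toZMod z = 0 ↔ ‖z‖ < 1 := by
    intro z
    rw [← RingHom.mem_ker, PadicInt.ker_toZMod, IsLocalRing.mem_maximalIdeal,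
      PadicInt.mem_nonunits]
  exact hk (toZp p a)

theorem rd_eq_iff (a b : OO p) : rd p a = rd p b ↔ pv p ((a : ℚ) - b) < 1 := by
  rw [← sub_eq_zero, ← map_sub]
  exact rd_eq_zero (a - b)

theorem exists_ker (P : BB.Point) (hbad : pv p 17950896 = 1) : ∃ r : ℕ, 0 < r ∧ Ker p (r • P) := by
  by_contra hno
  push Not at hno
  have H : ∀ r : ℕ, ∃ (x y : ℚ) (h : BB.Nonsingular x y), (r + 1) • P = Point.some x y h ∧
      pv p x ≤ 1 := by
    intro r
    have := hno (r + 1) (Nat.succ_pos r)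
    unfold Ker at this
    push Not at this
    obtain ⟨x, y, h, h1, h2⟩ := this
    exact ⟨x, y, h, h1, h2⟩
  choose x y h hP hx using H
  have hy : ∀ r, y r ∈ OO p := fun r => y_mem (eqn_iff.1 (h r).1) (hx r)
  obtain ⟨a, b, hab, hh⟩ := Finite.exists_ne_map_eq_of_infinite
    (fun k : ℕ => (rd p ⟨x k, hx k⟩, rd p ⟨y k, hy k⟩))
  wlog hlt : a < b generalizing a b
  · exact this b a hab.symm hh.symm (lt_of_le_of_ne (not_lt.1 hlt) hab.symm)
  have h1 := (rd_eq_iff (p := p) _ _).1 (congrArg Prod.fst hh).symm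
  have h2 := (rd_eq_iff (p := p) _ _).1 (congrArg Prod.snd hh).symm
  simp only at h1 h2
  -- the difference
  have hdP : (b - a) • P = Point.some (x b) (y b) (h b) + -Point.some (x a) (y a) (h a) := by
    rw [← hP a, ← hP b]
    have : (b + 1) • P = (b - a) • P + (a + 1) • P := by
      rw [← add_nsmul]; congr 1; omega
    rw [this]; abel
  apply hno (b - a) (Nat.sub_pos_of_lt hlt)
  rw [Point.neg_some] at hdP
  by_cases hne : x b = x a ∧ y b = -(BB.negY (x a) (y a))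
  · intro X Y hXY hX
    have h0 : (b - a) • P = 0 := by
      rw [hdP]
      exact Point.add_of_Y_eq hne.1 (by rw [hne.2, negY_eq, negY_eq])
    rw [h0] at hX
    exact absurd hX.symm (Point.some_ne_zero hXY)
  · obtain ⟨l, X, Y, hXY, hδ, r1, r2, r3, -⟩ := add_rel (h b) ((nonsingular_neg _ _).2 (h a)) hne
    rw [negY_eq] at r1 r2
    intro X' Y' hXY' hX'
    have hXX : X' = X := by
      rw [hdP, hδ] at hX'
      injection hX' with q1 q2
      exact q1.symm
    rw [hXX]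
    exact red_sub (p := p) (eqn_iff.1 (h b).1) (by rw [r1]; ring) (by rw [← r2]; ring) r3 (hx b) (hx a)
      h1 h2 hbad

end H48.CN
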