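import Pool.Agent.H48.CN.Weier

/-!
# No orbit stays in the arc `X < 0`

`B : Y^2 = X^3 + 26 X^2 + 540 X + 5832`. If `Q` has infinite order then the points `P + k Q`
cannot all have negative `X`-coordinate.
-/

namespace H48.CN

open WeierstrassCurve WeierstrassCurve.Affine

/-- The curve `Y^2 = X^3 + 26 X^2 + 540 X + 5832`. -/
abbrev BB : WeierstrassCurve.Affine ℚ := Wc 26 540 5832

theorem arc_bounds {x y : ℚ} (e : y ^ 2 = x ^ 3 + 26 * x ^ 2 + 540 * x + 5832) (hx : x < 0) :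
    -16 < x ∧ -77 < y ∧ y < 77 := by
  have h1 : -16 < x := by
    by_contra h
    push Not at h
    nlinarith [sq_nonneg y, mul_nonneg (sub_nonneg.2 h) (sq_nonneg (x + 5)), sq_nonneg (x + 5)]
  have h2 : y ^ 2 < 77 ^ 2 := by
    rw [e]
    nlinarith [mul_pos (neg_pos.2 hx) (show (0 : ℚ) < x ^ 2 + 26 * x + 540 by nlinarith [sq_nonneg (x + 13)])]
  exact ⟨h1, by nlinarith, by nlinarith⟩

theorem N_lower (x x' : ℚ) : 314 ≤ x ^ 2 + x * x' + x' ^ 2 + 26 * (x + x') + 540 := by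
  nlinarith [sq_nonneg (x - x'), sq_nonneg (3 * (x + x') + 52)]

theorem step_identity {x y X Y l x' y' : ℚ}
    (e2 : Y ^ 2 = X ^ 3 + 26 * X ^ 2 + 540 * X + 5832) (r1 : l * (x - X) = y - Y)
    (r3 : x' = l ^ 2 - 26 - x - X) (r4 : y' = -(y + l * (x' - x))) :
    (y' - y) * (X - x) ^ 3 =
      y * ((6 * x + 52) * X ^ 2 + (-3 * x ^ 2 + 52 * x + 1620) * X + (17496 + y ^ 2 - 26 * x ^ 2))
      - Y * ((3 * x ^ 2 + 52 * x + 540) * X + (5832 + 3 * y ^ 2 - (26 + 2 * x) * x ^ 2)) := by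
  have q1 : l * (X - x) = Y - y := by linear_combination -r1
  have q2 : (x' - x) * (X - x) ^ 2 =
      (3 * x ^ 2 + 52 * x + 540) * X - 2 * y * Y + (5832 + y ^ 2 - (26 + 2 * x) * x ^ 2) := by
    rw [r3]
    linear_combination (l * (X - x) + (Y - y)) * q1 + e2
  have q3 : l * (x' - x) * (X - x) ^ 3 = (Y - y) *
      ((3 * x ^ 2 + 52 * x + 540) * X - 2 * y * Y + (5832 + y ^ 2 - (26 + 2 * x) * x ^ 2)) := by
    rw [← q1, ← q2]; ring
  rw [r4]
  linear_combination -q3 + 2 * y * e2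

theorem step_lower {x y X Y y' : ℚ} (hx : -16 < x) (hx0 : x < 0) (hy1 : -77 < y) (hy2 : y < 77)
    (hX : 98000 ≤ X) (hY : 313 * X ≤ Y)
    (id : (y' - y) * (X - x) ^ 3 =
      y * ((6 * x + 52) * X ^ 2 + (-3 * x ^ 2 + 52 * x + 1620) * X + (17496 + y ^ 2 - 26 * x ^ 2))
      - Y * ((3 * x ^ 2 + 52 * x + 540) * X + (5832 + 3 * y ^ 2 - (26 + 2 * x) * x ^ 2))) :
    y' ≤ y - 10000 / X := by
  have hX0 : 0 < X := by linarith
  -- the first bracket
  have b1 : |(6 * x + 52) * X ^ 2 + (-3 * x ^ 2 + 52 * x + 1620) * X +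
      (17496 + y ^ 2 - 26 * x ^ 2)| ≤ 53 * X ^ 2 := by
    have c1 : -52 ≤ 6 * x + 52 := by linarith
    have c2 : 6 * x + 52 ≤ 52 := by linarith
    have c3 : 0 ≤ -3 * x ^ 2 + 52 * x + 1620 := by nlinarith
    have c4 : -3 * x ^ 2 + 52 * x + 1620 ≤ 1620 := by nlinarith
    have c5 : 0 ≤ 17496 + y ^ 2 - 26 * x ^ 2 := by nlinarith
    have c6 : 17496 + y ^ 2 - 26 * x ^ 2 ≤ 30000 := by nlinarith
    have hXX : 0 < X ^ 2 := by positivity
    have d1 := mul_le_mul_of_nonneg_right c1 hXX.le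
    have d2 := mul_le_mul_of_nonneg_right c2 hXX.le
    have d3 := mul_nonneg c3 hX0.le
    have d4 := mul_le_mul_of_nonneg_right c4 hX0.le
    have d5 : 98000 * X ≤ X ^ 2 := by nlinarith
    rw [abs_le]
    constructor
    · nlinarith
    · nlinarith
  have b2 : 314 * X ≤ (3 * x ^ 2 + 52 * x + 540) * X +
      (5832 + 3 * y ^ 2 - (26 + 2 * x) * x ^ 2) := by
    have c1 : 314 ≤ 3 * x ^ 2 + 52 * x + 540 := by nlinarith [sq_nonneg (3 * x + 26)]
    have c2 : 0 ≤ 5832 + 3 * y ^ 2 - (26 + 2 * x) * x ^ 2 := by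
      have : (26 + 2 * x) * x ^ 2 ≤ 5832 := by
        nlinarith [sq_nonneg x, mul_nonneg (sq_nonneg x) (neg_nonneg.2 hx0.le)]
      nlinarith [sq_nonneg y]
    nlinarith [mul_le_mul_of_nonneg_right c1 hX0.le]
  have b3 : y * ((6 * x + 52) * X ^ 2 + (-3 * x ^ 2 + 52 * x + 1620) * X +
      (17496 + y ^ 2 - 26 * x ^ 2)) ≤ 77 * (53 * X ^ 2) := by
    have habs : |y| ≤ 77 := abs_le.2 ⟨hy1.le, hy2.le⟩
    calc _ ≤ |y * ((6 * x + 52) * X ^ 2 + (-3 * x ^ 2 + 52 * x + 1620) * X +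
      (17496 + y ^ 2 - 26 * x ^ 2))| := le_abs_self _
      _ = |y| * |(6 * x + 52) * X ^ 2 + (-3 * x ^ 2 + 52 * x + 1620) * X +
      (17496 + y ^ 2 - 26 * x ^ 2)| := abs_mul _ _
      _ ≤ 77 * (53 * X ^ 2) := mul_le_mul habs b1 (abs_nonneg _) (by norm_num)
  have b4 : (313 * X) * (314 * X) ≤ Y * ((3 * x ^ 2 + 52 * x + 540) * X +
      (5832 + 3 * y ^ 2 - (26 + 2 * x) * x ^ 2)) :=
    mul_le_mul hY b2 (by positivity) (by linarith)
  have b5 : (y' - y) * (X - x) ^ 3 ≤ -94000 * X ^ 2 := by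
    rw [id]; nlinarith [sq_nonneg X]
  have hD : 0 < (X - x) ^ 3 := by
    have : 0 < X - x := by linarith
    positivity
  have hneg : y' - y < 0 := by
    by_contra h
    push Not at h
    have h1 := mul_nonneg h hD.le
    have h2 : 0 < X ^ 2 := by positivity
    linarith
  have hD2 : (X - x) ^ 3 ≤ 8 * X ^ 3 := by
    have h1 : X - x ≤ 2 * X := by linarith
    have h2 : 0 ≤ X - x := by linarith
    calc (X - x) ^ 3 ≤ (2 * X) ^ 3 := pow_le_pow_left₀ h2 h1 3
      _ = 8 * X ^ 3 := by ring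
  have b6 : (y' - y) * (8 * X ^ 3) ≤ -94000 * X ^ 2 := by
    have := mul_le_mul_of_nonpos_left hD2 hneg.le
    linarith
  have b7 : (y' - y) * X ≤ -10000 := by
    have h2 : 0 < X ^ 2 := by positivity
    have h3 : ((y' - y) * X * 8 + 94000) * X ^ 2 ≤ 0 := by linarith
    have h4 : (y' - y) * X * 8 + 94000 ≤ 0 := by
      by_contra h
      push Not at h
      have := mul_pos h h2
      linarith
    linarith
  have b8 : y' - y ≤ -10000 / X := by
    rw [le_div_iff₀ hX0]; exact b7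
  have b9 : -10000 / X = -(10000 / X) := by ring
  linarith

/-- A point all of whose translates `P + k • Q` have negative `X`-coordinate does not exist when `Q`
has infinite order. -/
theorem no_arc (P Q : BB.Point) (hQ : ∀ k : ℕ, 0 < k → k • Q ≠ 0)
    (H : ∀ k : ℕ, ∃ (x y : ℚ) (h : BB.Nonsingular x y), P + k • Q = Point.some x y h ∧ x < 0) :
    False := by
  choose x y h hP hx using H
  have e : ∀ k, (y k) ^ 2 = (x k) ^ 3 + 26 * (x k) ^ 2 + 540 * (x k) + 5832 :=
    fun k => eqn_iff.1 (h k).1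
  have hb := fun k => arc_bounds (e k) (hx k)
  -- pigeonhole on the integer part of y
  obtain ⟨i, j, hij, hfl⟩ : ∃ i j : ℕ, i < j ∧ ⌊y i⌋ = ⌊y j⌋ := by
    have hmaps : ∀ k : ℕ, ⌊y k⌋ ∈ Finset.Icc (-77 : ℤ) 77 := by
      intro k
      rw [Finset.mem_Icc]
      obtain ⟨-, h1, h2⟩ := hb k
      constructor
      · rw [Int.le_floor]; push_cast; exact h1.le
      · have : ⌊y k⌋ < 78 := by
          rw [Int.floor_lt]; push_cast; linarith
        omega
    obtain ⟨a, b, hab, hh⟩ := Finite.exists_ne_map_eq_of_infinite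
      (fun k : ℕ => (⟨⌊y k⌋, hmaps k⟩ : Finset.Icc (-77 : ℤ) 77))
    have hh' : ⌊y a⌋ = ⌊y b⌋ := congrArg Subtype.val hh
    rcases lt_or_gt_of_ne hab with h1 | h1
    · exact ⟨a, b, h1, hh'⟩
    · exact ⟨b, a, h1, hh'.symm⟩
  have hyy : |y j - y i| < 1 := by
    rw [abs_lt]
    have a1 := Int.floor_le (y i)
    have a2 := Int.lt_floor_add_one (y i)
    have a3 := Int.floor_le (y j)
    have a4 := Int.lt_floor_add_one (y j)
    rw [hfl] at a1 a2
    constructor <;> linarith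
  -- the small element
  set d := j - i with hd
  have hd0 : 0 < d := Nat.sub_pos_of_lt hij
  have hdQ : d • Q = Point.some (x j) (y j) (h j) + -Point.some (x i) (y i) (h i) := by
    rw [← hP j, ← hP i]
    have : j • Q = d • Q + i • Q := by rw [← add_nsmul, hd, Nat.sub_add_cancel hij.le]
    rw [this]; abel
  rw [Point.neg_some] at hdQ
  have hne : ¬(x j = x i ∧ y j = -(BB.negY (x i) (y i))) := by
    rintro ⟨h1, h2⟩
    apply hQ d hd0
    rw [hdQ]
    exact Point.add_of_Y_eq h1 (by rw [h2, negY_eq, negY_eq])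
  obtain ⟨l, X, Y, hXY, hδ, r1, r2, r3, -⟩ := add_rel (h j) ((nonsingular_neg _ _).2 (h i)) hne
  rw [negY_eq] at r1 r2
  have hN := N_lower (x j) (x i)
  have hl : 314 ≤ |l| := by
    have h1 : 314 ≤ |l * (y j + -y i)| := by
      rw [r2]; exact le_trans hN (le_abs_self _)
    rw [abs_mul] at h1
    have h2 : |y j + -y i| ≤ 1 := by rw [← sub_eq_add_neg]; exact hyy.le
    have h3 : |l| * |y j + -y i| ≤ |l| * 1 := mul_le_mul_of_nonneg_left h2 (abs_nonneg l)
    linarith
  have hX : 98000 ≤ X := by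
    have h1 : (314 : ℚ) ^ 2 ≤ l ^ 2 := by
      rw [← sq_abs l]; exact pow_le_pow_left₀ (by norm_num) hl 2
    have := hx j; have := hx i
    rw [r3]; linarith
  have eY : Y ^ 2 = X ^ 3 + 26 * X ^ 2 + 540 * X + 5832 := eqn_iff.1 hXY.1
  have hYabs : 313 * X ≤ |Y| := by
    have h1 : (313 * X) ^ 2 ≤ Y ^ 2 := by
      rw [eY]
      have h2 : 0 ≤ X ^ 2 := sq_nonneg X
      nlinarith [mul_le_mul_of_nonneg_right hX h2]
    rw [← sq_abs Y] at h1
    exact le_of_sq_le_sq h1 (abs_nonneg Y)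
  have hδ' : d • Q = Point.some X Y hXY := by rw [hdQ]; exact hδ
  -- one step
  have hstep : ∀ m : ℕ, (0 < Y → y ((m + 1) * d) ≤ y (m * d) - 10000 / X) ∧
      (Y < 0 → y (m * d) + 10000 / X ≤ y ((m + 1) * d)) := by
    intro m
    set a := m * d with ha
    have hsum : Point.some (x a) (y a) (h a) + Point.some X Y hXY =
        Point.some (x ((m + 1) * d)) (y ((m + 1) * d)) (h ((m + 1) * d)) := by
      rw [← hP, ← hP, ← hδ', add_assoc, ← add_nsmul, ha]
      congr 2; ring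
    obtain ⟨b1, b2, b3⟩ := hb a
    have hxX : ¬(x a = X ∧ y a = -Y) := by
      rintro ⟨h1, -⟩; have := hx a; linarith
    obtain ⟨l', x', y', h', hs, s1, -, s3, s4⟩ := add_rel (h a) hXY hxX
    rw [hs] at hsum
    have hy' : y' = y ((m + 1) * d) := by
      injection hsum
    rw [← hy']
    have id1 := step_identity eY s1 s3 s4
    refine ⟨fun hY => ?_, fun hY => ?_⟩
    · rw [abs_of_pos hY] at hYabs
      exact step_lower b1 (hx a) b2 b3 hX hYabs id1
    · rw [abs_of_neg hY] at hYabs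
      have := step_lower (x := x a) (y := -y a) (X := X) (Y := -Y) (y' := -y') b1 (hx a)
        (by linarith) (by linarith) hX hYabs (by linear_combination -id1)
      linarith
  have hc : 0 < 10000 / X := by
    have : 0 < X := by linarith
    positivity
  have hY0 : Y ≠ 0 := by
    rintro rfl
    rw [abs_zero] at hYabs; linarith
  rcases lt_or_gt_of_ne hY0 with hY | hY
  · have hind : ∀ m : ℕ, y 0 + m * (10000 / X) ≤ y (m * d) := by
      intro m
      induction m with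
      | zero => simp
      | succ m ih =>
        have := (hstep m).2 hY
        push_cast
        linarith
    obtain ⟨m, hm⟩ := exists_nat_gt (200 / (10000 / X))
    rw [div_lt_iff₀ hc] at hm
    have h1 := hind m
    have h2 := (hb 0).2.1
    have h3 := (hb (m * d)).2.2
    linarith
  · have hind : ∀ m : ℕ, y (m * d) ≤ y 0 - m * (10000 / X) := by
      intro m
      induction m with
      | zero => simp
      | succ m ih =>
        have := (hstep m).1 hY
        push_cast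
        linarith
    obtain ⟨m, hm⟩ := exists_nat_gt (200 / (10000 / X))
    rw [div_lt_iff₀ hc] at hm
    have h1 := hind m
    have h2 := (hb 0).2.2
    have h3 := (hb (m * d)).2.1
    linarith

end H48.CN
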