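import Mathlib

/-!
# Addition on curves `Y^2 = X^3 + A X^2 + B X + C`

One lemma describing the sum of two affine points which are not opposite, covering the chord and
the tangent case at the same time.
-/

namespace H48.CN

open WeierstrassCurve WeierstrassCurve.Affine

variable {K : Type*} [Field K] [DecidableEq K]

/-- The curve `Y^2 = X^3 + A X^2 + B X + C`. -/
def Wc (A B C : K) : WeierstrassCurve.Affine K := ⟨0, A, 0, B, C⟩

variable {A B C : K}

omit [DecidableEq K] in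
theorem eqn_iff {x y : K} : (Wc A B C).Equation x y ↔ y ^ 2 = x ^ 3 + A * x ^ 2 + B * x + C := by
  rw [WeierstrassCurve.Affine.equation_iff]
  simp [Wc]

omit [DecidableEq K] in
theorem negY_eq (x y : K) : (Wc A B C).negY x y = -y := by
  simp [WeierstrassCurve.Affine.negY, Wc]

theorem add_rel {x₁ y₁ x₂ y₂ : K} (h₁ : (Wc A B C).Nonsingular x₁ y₁)
    (h₂ : (Wc A B C).Nonsingular x₂ y₂) (h : ¬(x₁ = x₂ ∧ y₁ = -y₂)) :
    ∃ (l x₃ y₃ : K) (h₃ : (Wc A B C).Nonsingular x₃ y₃),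
      (Point.some x₁ y₁ h₁ + Point.some x₂ y₂ h₂ = Point.some x₃ y₃ h₃) ∧
      l * (x₁ - x₂) = y₁ - y₂ ∧
      l * (y₁ + y₂) = x₁ ^ 2 + x₁ * x₂ + x₂ ^ 2 + A * (x₁ + x₂) + B ∧
      x₃ = l ^ 2 - A - x₁ - x₂ ∧ y₃ = -(y₁ + l * (x₃ - x₁)) := by
  have h' : ¬(x₁ = x₂ ∧ y₁ = (Wc A B C).negY x₂ y₂) := by rwa [negY_eq]
  have e₁ := eqn_iff.1 h₁.1
  have e₂ := eqn_iff.1 h₂.1
  refine ⟨(Wc A B C).slope x₁ x₂ y₁ y₂, _, _, _, Point.add_some h', ?_, ?_, ?_, ?_⟩
  · by_cases hx : x₁ = x₂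
    · subst hx
      have : y₁ = y₂ := by
        have h2 : (y₁ - y₂) * (y₁ + y₂) = 0 := by
          linear_combination e₁ - e₂
        rcases mul_eq_zero.1 h2 with h3 | h3
        · exact sub_eq_zero.1 h3
        · exact absurd ⟨rfl, eq_neg_of_add_eq_zero_left h3⟩ h
      rw [this]; ring
    · rw [slope_of_X_ne hx]
      field_simp [sub_ne_zero.2 hx]
  · by_cases hx : x₁ = x₂
    · subst hx
      have hy : y₁ ≠ (Wc A B C).negY x₁ y₂ := fun hh => h' ⟨rfl, hh⟩
      have hyy : y₁ = y₂ := by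
        have h2 : (y₁ - y₂) * (y₁ + y₂) = 0 := by
          linear_combination e₁ - e₂
        rcases mul_eq_zero.1 h2 with h3 | h3
        · exact sub_eq_zero.1 h3
        · exact absurd ⟨rfl, eq_neg_of_add_eq_zero_left h3⟩ h
      subst hyy
      rw [slope_of_Y_ne rfl hy]
      have hy2 : y₁ + y₁ ≠ 0 := by
        intro h0; exact h ⟨rfl, eq_neg_of_add_eq_zero_left h0⟩
      have : y₁ - (Wc A B C).negY x₁ y₁ = y₁ + y₁ := by rw [negY_eq]; ring
      rw [this, div_mul_cancel₀ _ hy2]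
      simp [Wc]; ring
    · rw [slope_of_X_ne hx]
      have hx' := sub_ne_zero.2 hx
      rw [div_mul_eq_mul_div, div_eq_iff hx']
      linear_combination e₁ - e₂
  · simp [WeierstrassCurve.Affine.addX, Wc]
  · simp only [WeierstrassCurve.Affine.addY, WeierstrassCurve.Affine.negAddY, negY_eq]
    ring

omit [DecidableEq K] in
/-- Nonsingularity when the discriminant does not vanish in the naive sense. -/
theorem nonsing_of {x y : K} (e : y ^ 2 = x ^ 3 + A * x ^ 2 + B * x + C)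
    (h : 2 * y ≠ 0 ∨ 3 * x ^ 2 + 2 * A * x + B ≠ 0) : (Wc A B C).Nonsingular x y := by
  rw [WeierstrassCurve.Affine.nonsingular_iff]
  refine ⟨eqn_iff.2 e, ?_⟩
  simp only [Wc]
  rcases h with h | h
  · right
    intro h2; apply h; linear_combination h2
  · left
    intro h2; apply h; linear_combination -h2

end H48.CN
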